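import Mathlib

/-!
# A component of the space of embedded closed polygons which is not contractible

Side lengths `14, 7, 3, 3, 15, 26, 26` (`n = 7`). Vertices of the base polygon:
`(0,0,0), (12,6,4), (6,4,1), (8,3,3), (6,5,2), (20,0,0), (10,24,0)`.

* The first five edges form a locked chain (a knotted pair of knitting needles): the long edge
  `p0 p1` meets the triangle `p2 p3 p4`, the long edge `p4 p5` meets the triangle `p1 p2 p3`, and
  the barycentric coordinates `x, y` of the two intersection points satisfy `x2 y3 <= x3 y2`.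
  These conditions are closed; for embedded polygons they imply that the four points
  `p1 p2 p3 p4` are not coplanar and that all the inequalities are strict, so they are also open.
* Under these conditions `p5` is never on the line `p0 p1`, and the last two edges have equal
  length and are so long that `p6` is never on the line `p0 p5`.  So the dihedral angle at the axis
  `p0 p5` between `p1` and `p6` is a continuous circle-valued function on the component.
* Turning `p6` once around the axis `p0 p5` is a loop of embedded polygons on which this angle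
  makes one full turn.
-/

set_option autoImplicit false

namespace Pool.Agent.Results.MP_e82153_gt.NonContractible

open Matrix

/-! ## The objects of the problem -/

/-- Points and vectors of three-dimensional space. -/
abbrev R3 : Type := Fin 3 → ℝ

/-- The unit sphere of three-dimensional space. -/
abbrev S2 : Type := {x : R3 // x ⬝ᵥ x = 1}

/-- The tuples `(u_1, ..., u_n)` of unit vectors with `∑ l_i u_i = 0`. -/
abbrev Chain {n : ℕ} (l : Fin n → ℝ) : Type :=
  {u : Fin n → S2 // ∑ i, l i • (u i : R3) = 0}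

/-- Two closed tuples are equivalent when a rotation in `SO(3)`, acting diagonally, carries one
to the other. -/
def rotSetoid {n : ℕ} (l : Fin n → ℝ) : Setoid (Chain l) where
  r u v := ∃ A ∈ Matrix.specialOrthogonalGroup (Fin 3) ℝ,
    ∀ i, (v.1 i : R3) = A *ᵥ (u.1 i : R3)
  iseqv := by
    constructor
    · intro u
      exact ⟨1, one_mem _, fun i => by simp⟩
    · rintro u v ⟨A, hA, h⟩
      rw [Matrix.mem_specialOrthogonalGroup_iff] at hA
      refine ⟨Aᵀ, ?_, fun i => ?_⟩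
      · rw [Matrix.mem_specialOrthogonalGroup_iff]
        refine ⟨?_, by rw [Matrix.det_transpose]; exact hA.2⟩
        have := hA.1
        rw [Matrix.mem_orthogonalGroup_iff] at this ⊢
        have h2 := (Matrix.mem_orthogonalGroup_iff' (Fin 3) ℝ).1 hA.1
        simpa [Matrix.star_eq_conjTranspose] using h2
      · have h2 := (Matrix.mem_orthogonalGroup_iff' (Fin 3) ℝ).1 hA.1
        rw [h i, Matrix.mulVec_mulVec]
        have h3 : Aᵀ * A = 1 := by simpa [Matrix.star_eq_conjTranspose] using h2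
        rw [h3, Matrix.one_mulVec]
    · rintro u v w ⟨A, hA, h⟩ ⟨B, hB, h'⟩
      exact ⟨B * A, mul_mem hB hA, fun i => by rw [h' i, h i, Matrix.mulVec_mulVec]⟩

/-- The polygon space `M_l`. -/
def PolygonSpace {n : ℕ} (l : Fin n → ℝ) : Type := Quotient (rotSetoid l)

/-- The polygon space carries the quotient topology. -/
instance {n : ℕ} (l : Fin n → ℝ) : TopologicalSpace (PolygonSpace l) :=
  instTopologicalSpaceQuotient

/-- The class of a closed tuple in the polygon space. -/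
def cls {n : ℕ} {l : Fin n → ℝ} (u : Chain l) : PolygonSpace l := Quotient.mk (rotSetoid l) u

/-- The vertex `p_k = ∑_{i ≤ k} l_i u_i` (here `i` counts from `0`, so the sum is over `i < k`). -/
def vertex {n : ℕ} {l : Fin n → ℝ} (u : Chain l) (k : ℕ) : R3 :=
  ∑ i ∈ Finset.univ.filter (fun i : Fin n => i.val < k), l i • (u.1 i : R3)

/-- The edge number `k`, counted from `0`: the segment from `p_k` to `p_{k+1}`. -/
def edge {n : ℕ} {l : Fin n → ℝ} (u : Chain l) (k : ℕ) : Set R3 :=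
  segment ℝ (vertex u k) (vertex u (k + 1))

/-- Self-intersecting closed polygons: two non-adjacent edges have a common point, or two adjacent
edges have a common point other than their shared vertex. -/
def SelfIntersecting {n : ℕ} {l : Fin n → ℝ} (u : Chain l) : Prop :=
  (∃ i j : ℕ, j < n ∧ i + 2 ≤ j ∧ j + 2 ≤ i + n ∧ (edge u i ∩ edge u j).Nonempty) ∨
  (∃ i : ℕ, i + 1 < n ∧ ∃ x ∈ edge u i ∩ edge u (i + 1), x ≠ vertex u (i + 1)) ∨
  (∃ x ∈ edge u (n - 1) ∩ edge u 0, x ≠ vertex u 0)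

/-- The set `X` of self-intersecting configurations in the polygon space. -/
def X {n : ℕ} (l : Fin n → ℝ) : Set (PolygonSpace l) :=
  {m | ∃ u : Chain l, SelfIntersecting u ∧ cls u = m}

/-! ## Leaving a triangle -/

/-- Leaving the positive orthant. -/
theorem exit3 (x c : Fin 3 → ℝ) (hx : ∀ i, 0 < x i) (hc : ∃ i, c i < 0) :
    ∃ t : ℝ, 0 ≤ t ∧ t < 1 ∧ (∀ i, 0 ≤ (1 - t) * x i + t * c i) ∧
      ∃ i, (1 - t) * x i + t * c i = 0 := by
  classical
  obtain ⟨i1, hi1⟩ := hc
  obtain ⟨i0, hi0, hmin⟩ := Finset.exists_min_image (Finset.univ.filter fun i => c i < 0)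
    (fun i => x i / (x i - c i)) ⟨i1, by simp [hi1]⟩
  simp only [Finset.mem_filter, Finset.mem_univ, true_and] at hi0 hmin
  have hpos : 0 < x i0 - c i0 := by have := hx i0; linarith
  refine ⟨x i0 / (x i0 - c i0), div_nonneg (hx i0).le hpos.le, ?_, fun j => ?_, i0, ?_⟩
  · rw [div_lt_one hpos]; linarith
  · by_cases hj : c j < 0
    · have h1 := hmin j hj
      have hj' : 0 < x j - c j := by have := hx j; linarith
      rw [le_div_iff₀ hj'] at h1
      nlinarith
    · push Not at hj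
      have ht : 0 ≤ x i0 / (x i0 - c i0) := div_nonneg (hx i0).le hpos.le
      have ht1 : x i0 / (x i0 - c i0) ≤ 1 := by rw [div_le_one hpos]; linarith
      have := hx j
      have h2 : 0 ≤ (1 - x i0 / (x i0 - c i0)) * x j := mul_nonneg (by linarith) this.le
      have h3 : 0 ≤ x i0 / (x i0 - c i0) * c j := mul_nonneg ht hj
      linarith
  · field_simp
    ring

/-- Affine combinations of three points. -/
def comb (p q r : R3) (c : Fin 3 → ℝ) : R3 := c 0 • p + c 1 • q + c 2 • r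

theorem no_two_exits (p q r : R3) (A : Set R3) (x c c' : Fin 3 → ℝ) (s : ℝ) (hs : 0 < s)
    (hs1 : s < 1) (hx : ∀ i, 0 < x i) (hx1 : x 0 + x 1 + x 2 = 1) (hc1 : c 0 + c 1 + c 2 = 1)
    (hc1' : c' 0 + c' 1 + c' 2 = 1) (hc : ∃ i, c i < 0) (hc' : ∃ i, c' i < 0)
    (hmid : x 1 = (1 - s) * c 1 + s * c' 1)
    (hA : ∀ t : ℝ, 0 ≤ t → t ≤ 1 → comb p q r (fun i => (1 - t) * x i + t * c i) ∈ A)
    (hA' : ∀ t : ℝ, 0 ≤ t → t ≤ 1 → comb p q r (fun i => (1 - t) * x i + t * c' i) ∈ A)
    (h1 : ∀ z ∈ A, z ∉ segment ℝ p q) (h2 : ∀ z ∈ A, z ∉ segment ℝ q r) : False := by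
  have key : ∀ c : Fin 3 → ℝ, c 0 + c 1 + c 2 = 1 → (∃ i, c i < 0) →
      (∀ t : ℝ, 0 ≤ t → t ≤ 1 → comb p q r (fun i => (1 - t) * x i + t * c i) ∈ A) →
      c 1 < 0 := by
    intro c hc1 hc hA
    obtain ⟨t, ht0, ht1, hall, i, hi⟩ := exit3 x c hx hc
    have hm := hA t ht0 ht1.le
    have hsum : ((1 - t) * x 0 + t * c 0) + ((1 - t) * x 1 + t * c 1) +
        ((1 - t) * x 2 + t * c 2) = 1 := by
      have : ((1 - t) * x 0 + t * c 0) + ((1 - t) * x 1 + t * c 1) +
        ((1 - t) * x 2 + t * c 2) = (1 - t) * (x 0 + x 1 + x 2) + t * (c 0 + c 1 + c 2) := by ring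
      rw [this, hx1, hc1]; ring
    fin_cases i
    · exfalso
      simp only [Fin.zero_eta] at hi
      refine h2 _ hm ⟨(1 - t) * x 1 + t * c 1, (1 - t) * x 2 + t * c 2, hall 1, hall 2,
        by linarith, ?_⟩
      simp only [comb, hi, zero_smul, zero_add]
    · have hi' : (1 - t) * x 1 + t * c 1 = 0 := hi
      have := hx 1
      by_contra hcon
      push Not at hcon
      nlinarith [mul_pos (sub_pos.2 ht1) this, mul_nonneg ht0 hcon]
    · exfalso
      have hi' : (1 - t) * x 2 + t * c 2 = 0 := hi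
      refine h1 _ hm ⟨(1 - t) * x 0 + t * c 0, (1 - t) * x 1 + t * c 1, hall 0, hall 1,
        by linarith, ?_⟩
      simp only [comb, hi', zero_smul, add_zero]
  have k1 := key c hc1 hc hA
  have k2 := key c' hc1' hc' hA'
  have := hx 1
  nlinarith [mul_pos (sub_pos.2 hs1) (neg_pos.2 k1), mul_pos hs (neg_pos.2 k2)]

/-! ## The locked chain -/

/-- Euclidean norm on `R3`. -/
noncomputable def nrm (x : R3) : ℝ := ‖(WithLp.toLp 2 x : EuclideanSpace ℝ (Fin 3))‖

theorem nrm_nonneg (x : R3) : 0 ≤ nrm x := norm_nonneg _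

theorem nrm_add_le (x y : R3) : nrm (x + y) ≤ nrm x + nrm y := by
  unfold nrm
  rw [WithLp.toLp_add]
  exact norm_add_le _ _

theorem nrm_smul (c : ℝ) (x : R3) : nrm (c • x) = |c| * nrm x := by
  unfold nrm
  rw [WithLp.toLp_smul, norm_smul, Real.norm_eq_abs]

theorem nrm_neg (x : R3) : nrm (-x) = nrm x := by
  unfold nrm
  rw [WithLp.toLp_neg, norm_neg]

theorem nrm_sub_comm (x y : R3) : nrm (x - y) = nrm (y - x) := by
  rw [← nrm_neg, neg_sub]

theorem nrm_sq (x : R3) : nrm x ^ 2 = x ⬝ᵥ x := by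
  unfold nrm
  rw [EuclideanSpace.norm_sq_eq]
  simp [dotProduct, Fin.sum_univ_three, sq]

theorem nrm_zero : nrm 0 = 0 := by
  unfold nrm; simp

theorem nrm_eq_zero {x : R3} (h : nrm x = 0) : x = 0 := by
  unfold nrm at h
  rw [norm_eq_zero] at h
  simpa using h

/-- Determinant of three vectors. -/
def det3 (a b c : R3) : ℝ :=
  a 0 * (b 1 * c 2 - b 2 * c 1) - a 1 * (b 0 * c 2 - b 2 * c 0) + a 2 * (b 0 * c 1 - b 1 * c 0)

theorem det3_eq_zero {a b c : R3} (h : det3 a b c = 0) :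
    ∃ w : Fin 3 → ℝ, w ≠ 0 ∧ comb a b c w = 0 := by
  have hdet : Matrix.det (Matrix.of ![a, b, c]) = 0 := by
    rw [Matrix.det_fin_three]
    simp only [Matrix.of_apply, Matrix.cons_val_zero, Matrix.cons_val_one, Matrix.cons_val]
    rw [← h]
    unfold det3
    ring
  obtain ⟨w, hw, hw2⟩ := Matrix.exists_vecMul_eq_zero_iff.2 hdet
  refine ⟨w, hw, ?_⟩
  rw [← hw2]
  ext i
  simp [comb, Matrix.vecMul, dotProduct, Fin.sum_univ_three]

/-- The open condition. -/
def OpenCond (p0 p1 p2 p3 p4 p5 : R3) : Prop :=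
  det3 (p2 - p1) (p3 - p1) (p4 - p1) ≠ 0 ∧
  0 < det3 (p2 - p1) (p3 - p1) (p4 - p1) * det3 (p0 - p1) (p3 - p1) (p4 - p1) ∧
  0 < det3 (p2 - p1) (p3 - p1) (p4 - p1) * det3 (p2 - p1) (p0 - p1) (p4 - p1) ∧
  0 < det3 (p2 - p1) (p3 - p1) (p4 - p1) * det3 (p2 - p1) (p3 - p1) (p0 - p1) ∧
  det3 (p2 - p1) (p3 - p1) (p4 - p1) * det3 (p2 - p1) (p3 - p1) (p4 - p1) <
    det3 (p2 - p1) (p3 - p1) (p4 - p1) * (det3 (p0 - p1) (p3 - p1) (p4 - p1) +
      det3 (p2 - p1) (p0 - p1) (p4 - p1) + det3 (p2 - p1) (p3 - p1) (p0 - p1)) ∧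
  0 < det3 (p2 - p1) (p3 - p1) (p4 - p1) * det3 (p5 - p1) (p3 - p1) (p4 - p1) ∧
  0 < det3 (p2 - p1) (p3 - p1) (p4 - p1) * det3 (p2 - p1) (p5 - p1) (p4 - p1) ∧
  det3 (p2 - p1) (p3 - p1) (p4 - p1) * det3 (p2 - p1) (p3 - p1) (p5 - p1) < 0 ∧
  det3 (p2 - p1) (p3 - p1) (p4 - p1) * (det3 (p5 - p1) (p3 - p1) (p4 - p1) +
      det3 (p2 - p1) (p5 - p1) (p4 - p1) + det3 (p2 - p1) (p3 - p1) (p5 - p1)) <
    det3 (p2 - p1) (p3 - p1) (p4 - p1) * det3 (p2 - p1) (p3 - p1) (p4 - p1) ∧
  det3 (p0 - p1) (p3 - p1) (p4 - p1) * det3 (p2 - p1) (p5 - p1) (p4 - p1) <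
    det3 (p2 - p1) (p0 - p1) (p4 - p1) * det3 (p5 - p1) (p3 - p1) (p4 - p1)

/-- The closed condition, with parameters `q` in the unit cube. -/
def ClosedRel (q : Fin 8 → ℝ) (p0 p1 p2 p3 p4 p5 : R3) : Prop :=
  q 0 + q 1 + q 2 = 1 ∧ q 4 + q 5 + q 6 = 1 ∧
  q 0 • p2 + q 1 • p3 + q 2 • p4 = (1 - q 3) • p1 + q 3 • p0 ∧
  q 4 • p1 + q 5 • p2 + q 6 • p3 = (1 - q 7) • p4 + q 7 • p5 ∧
  q 0 * q 6 ≤ q 1 * q 5

/-- The closed condition. -/
def ClosedCond (p0 p1 p2 p3 p4 p5 : R3) : Prop :=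
  ∃ q : Fin 8 → unitInterval, ClosedRel (fun i => (q i : ℝ)) p0 p1 p2 p3 p4 p5

theorem cramer3 (a b c x : R3) :
    det3 a b c • x = det3 x b c • a + det3 a x c • b + det3 a b x • c := by
  ext i
  fin_cases i <;> simp [det3] <;> ring

theorem closedCond_of_openCond {p0 p1 p2 p3 p4 p5 : R3} (h : OpenCond p0 p1 p2 p3 p4 p5) :
    ClosedCond p0 p1 p2 p3 p4 p5 := by
  obtain ⟨hD, h1, h2, h3, h4, h5, h6, h7, h8, h9⟩ := h
  have c0 := cramer3 (p2 - p1) (p3 - p1) (p4 - p1) (p0 - p1)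
  have c5 := cramer3 (p2 - p1) (p3 - p1) (p4 - p1) (p5 - p1)
  set D := det3 (p2 - p1) (p3 - p1) (p4 - p1) with hDdef
  set A2 := det3 (p0 - p1) (p3 - p1) (p4 - p1)
  set A3 := det3 (p2 - p1) (p0 - p1) (p4 - p1)
  set A4 := det3 (p2 - p1) (p3 - p1) (p0 - p1)
  set F2 := det3 (p5 - p1) (p3 - p1) (p4 - p1)
  set F3 := det3 (p2 - p1) (p5 - p1) (p4 - p1)
  set F4 := det3 (p2 - p1) (p3 - p1) (p5 - p1)
  have hDD : 0 < D * D := mul_self_pos.2 hD
  set S := D * A2 + D * A3 + D * A4 with hS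
  have hSpos : 0 < S := by positivity
  have hSlt : D * D < S := by rw [hS]; linarith [h4]
  -- coordinates of p5 times D*D
  set B1 := D * D - (D * F2 + D * F3 + D * F4) with hB1
  have hB1pos : 0 < B1 := by rw [hB1]; linarith [h8]
  set T := B1 + D * F2 + D * F3 with hT
  have hTpos : 0 < T := by positivity
  have hTlt : D * D < T := by rw [hT, hB1]; linarith
  have unit : ∀ a b : ℝ, 0 < b → 0 ≤ a → a ≤ b → a / b ∈ unitInterval := by
    intro a b hb ha hab
    exact ⟨div_nonneg ha hb.le, (div_le_one hb).2 hab⟩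
  refine ⟨![⟨D * A2 / S, unit _ _ hSpos h1.le (by rw [hS]; linarith)⟩,
    ⟨D * A3 / S, unit _ _ hSpos h2.le (by rw [hS]; linarith)⟩,
    ⟨D * A4 / S, unit _ _ hSpos h3.le (by rw [hS]; linarith)⟩,
    ⟨D * D / S, unit _ _ hSpos hDD.le hSlt.le⟩,
    ⟨B1 / T, unit _ _ hTpos hB1pos.le (by rw [hT]; linarith)⟩,
    ⟨D * F2 / T, unit _ _ hTpos h5.le (by rw [hT]; linarith)⟩,
    ⟨D * F3 / T, unit _ _ hTpos h6.le (by rw [hT]; linarith)⟩,
    ⟨D * D / T, unit _ _ hTpos hDD.le hTlt.le⟩], ?_, ?_, ?_, ?_, ?_⟩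
  · show D * A2 / S + D * A3 / S + D * A4 / S = 1
    rw [← add_div, ← add_div]
    exact div_self hSpos.ne'
  · show B1 / T + D * F2 / T + D * F3 / T = 1
    rw [← add_div, ← add_div]
    exact div_self hTpos.ne'
  · show (D * A2 / S) • p2 + (D * A3 / S) • p3 + (D * A4 / S) • p4 =
      (1 - D * D / S) • p1 + (D * D / S) • p0
    ext i
    have ci := congrFun c0 i
    simp only [Pi.add_apply, Pi.smul_apply, Pi.sub_apply, smul_eq_mul] at ci ⊢
    field_simp
    rw [hS]
    linear_combination (-D) * ci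
  · show (B1 / T) • p1 + (D * F2 / T) • p2 + (D * F3 / T) • p3 =
      (1 - D * D / T) • p4 + (D * D / T) • p5
    ext i
    have ci := congrFun c5 i
    simp only [Pi.add_apply, Pi.smul_apply, Pi.sub_apply, smul_eq_mul] at ci ⊢
    field_simp
    rw [hT, hB1]
    linear_combination (-D) * ci
  · show D * A2 / S * (D * F3 / T) ≤ D * A3 / S * (D * F2 / T)
    have e1 : D * A2 / S * (D * F3 / T) = D * D * (A2 * F3) / (S * T) := by
      field_simp
    have e2 : D * A3 / S * (D * F2 / T) = D * D * (A3 * F2) / (S * T) := by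
      field_simp
    rw [e1, e2]
    have := mul_pos hSpos hTpos
    gcongr

/-- Embeddedness and length hypotheses for the locked chain. -/
structure Emb (p0 p1 p2 p3 p4 p5 : R3) : Prop where
  h02 : ∀ z ∈ segment ℝ p0 p1, z ∉ segment ℝ p2 p3
  h03 : ∀ z ∈ segment ℝ p0 p1, z ∉ segment ℝ p3 p4
  h04 : ∀ z ∈ segment ℝ p0 p1, z ∉ segment ℝ p4 p5
  h14 : ∀ z ∈ segment ℝ p1 p2, z ∉ segment ℝ p4 p5
  h24 : ∀ z ∈ segment ℝ p2 p3, z ∉ segment ℝ p4 p5
  l1 : nrm (p3 - p2) + nrm (p4 - p3) < nrm (p2 - p1)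
  l0 : nrm (p2 - p1) + nrm (p3 - p2) + nrm (p4 - p3) < nrm (p1 - p0)
  l4 : nrm (p2 - p1) + nrm (p3 - p2) + nrm (p4 - p3) < nrm (p5 - p4)

theorem openCond_of_closedCond {p0 p1 p2 p3 p4 p5 : R3} (h : ClosedCond p0 p1 p2 p3 p4 p5)
    (he : Emb p0 p1 p2 p3 p4 p5) : OpenCond p0 p1 p2 p3 p4 p5 := by
  obtain ⟨q, r1, r3, r2, r4, r5⟩ := h
  have hq0 : ∀ i, 0 ≤ (q i : ℝ) := fun i => (q i).2.1
  have hq1 : ∀ i, (q i : ℝ) ≤ 1 := fun i => (q i).2.2
  have x2n := hq0 0
  have x3n := hq0 1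
  have x4n := hq0 2
  have sn := hq0 3
  have s1 := hq1 3
  have y1n := hq0 4
  have y2n := hq0 5
  have y3n := hq0 6
  have tn := hq0 7
  have t1 := hq1 7
  simp only at r1 r2 r3 r4 r5
  generalize (q 0 : ℝ) = x2 at *
  generalize (q 1 : ℝ) = x3 at *
  generalize (q 2 : ℝ) = x4 at *
  generalize (q 3 : ℝ) = s at *
  generalize (q 4 : ℝ) = y1 at *
  generalize (q 5 : ℝ) = y2 at *
  generalize (q 6 : ℝ) = y3 at *
  generalize (q 7 : ℝ) = t at *
  clear hq0 hq1
  -- points of the two needles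
  have hN1 : ∀ k : ℝ, 0 ≤ k → k ≤ 1 → (1 - k) • p1 + k • p0 ∈ segment ℝ p0 p1 :=
    fun k hk hk1 => ⟨k, 1 - k, hk, by linarith, by ring, by rw [add_comm]⟩
  have hN2 : ∀ k : ℝ, 0 ≤ k → k ≤ 1 → (1 - k) • p4 + k • p5 ∈ segment ℝ p4 p5 :=
    fun k hk hk1 => ⟨1 - k, k, by linarith, hk, by ring, rfl⟩
  -- strict positivity
  have x2p : 0 < x2 := by
    rcases x2n.lt_or_eq with h | h
    · exact h
    · exfalso
      refine he.h03 _ (hN1 s sn s1) ⟨x3, x4, x3n, x4n, by linarith, ?_⟩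
      rw [← r2, ← h, zero_smul, zero_add]
  have x4p : 0 < x4 := by
    rcases x4n.lt_or_eq with h | h
    · exact h
    · exfalso
      refine he.h02 _ (hN1 s sn s1) ⟨x2, x3, x2n, x3n, by linarith, ?_⟩
      rw [← r2, ← h, zero_smul, add_zero]
  have y1p : 0 < y1 := by
    rcases y1n.lt_or_eq with h | h
    · exact h
    · exfalso
      refine he.h24 _ ⟨y2, y3, y2n, y3n, by linarith, ?_⟩ (hN2 t tn t1)
      rw [← r4, ← h, zero_smul, zero_add]
  have y3p : 0 < y3 := by
    rcases y3n.lt_or_eq with h | h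
    · exact h
    · exfalso
      refine he.h14 _ ⟨y1, y2, y1n, y2n, by linarith, ?_⟩ (hN2 t tn t1)
      rw [← r4, ← h, zero_smul, add_zero]
  have hxy : 0 < x2 * y3 := mul_pos x2p y3p
  have x3p : 0 < x3 := by
    rcases x3n.lt_or_eq with h | h
    · exact h
    · rw [← h, zero_mul] at r5; linarith
  have y2p : 0 < y2 := by
    rcases y2n.lt_or_eq with h | h
    · exact h
    · rw [← h, mul_zero] at r5; linarith
  -- the ratio inequality is strict
  have r5s : x2 * y3 < x3 * y2 := by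
    rcases r5.lt_or_eq with h | h
    · exact h
    · exfalso
      have hden : 0 < y2 + x2 * y1 := by positivity
      have hk : 0 ≤ y2 / (y2 + x2 * y1) := by positivity
      have hk1 : y2 / (y2 + x2 * y1) ≤ 1 := by
        rw [div_le_one hden]; have := mul_pos x2p y1p; linarith
      have hm : 0 ≤ x2 / (y2 + x2 * y1) := by positivity
      have hx4 : x4 = 1 - x2 - x3 := by linarith
      have hy1 : y1 = 1 - y2 - y3 := by linarith
      have hm1' : x2 ≤ y2 + x2 * y1 := by
        have : y2 + x2 * y1 - x2 = y2 * x4 := by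
          rw [hx4, hy1]; linear_combination -h
        have h2 := mul_pos y2p x4p
        linarith
      have hm1 : x2 / (y2 + x2 * y1) ≤ 1 := (div_le_one hden).2 hm1'
      have e1 : (1 - y2 / (y2 + x2 * y1) * s) • p1 + (y2 / (y2 + x2 * y1) * s) • p0 =
          (1 - x2 / (y2 + x2 * y1) * t) • p4 + (x2 / (y2 + x2 * y1) * t) • p5 := by
        ext i
        have c2 := congrFun r2 i
        have c4 := congrFun r4 i
        simp only [Pi.add_apply, Pi.smul_apply, smul_eq_mul] at c2 c4 ⊢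
        have g1 : y2 / (y2 + x2 * y1) * (x2 * p2 i + x3 * p3 i + x4 * p4 i) +
            (1 - y2 / (y2 + x2 * y1)) * p1 i =
            x2 / (y2 + x2 * y1) * (y1 * p1 i + y2 * p2 i + y3 * p3 i) +
            (1 - x2 / (y2 + x2 * y1)) * p4 i := by
          field_simp
          rw [hx4, hy1]
          linear_combination (-p3 i + p4 i) * h
        rw [c2, c4] at g1
        linarith
      refine he.h04 _ (hN1 (y2 / (y2 + x2 * y1) * s) (mul_nonneg hk sn) (mul_le_one₀ hk1 sn s1)) ?_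
      rw [e1]
      exact hN2 _ (mul_nonneg hm tn) (mul_le_one₀ hm1 tn t1)
  -- metric facts
  have tri : ∀ a b c : R3, nrm (a - c) ≤ nrm (a - b) + nrm (b - c) := by
    intro a b c
    have : a - c = (a - b) + (b - c) := by abel
    rw [this]
    exact nrm_add_le _ _
  have tri3 : ∀ (a b c : R3) (u v w : ℝ), 0 ≤ u → 0 ≤ v → 0 ≤ w →
      nrm (u • a + v • b + w • c) ≤ u * nrm a + v * nrm b + w * nrm c := by
    intro a b c u v w hu hv hw
    have h1 := nrm_add_le (u • a + v • b) (w • c)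
    have h2 := nrm_add_le (u • a) (v • b)
    rw [nrm_smul, abs_of_nonneg hw] at h1
    rw [nrm_smul, nrm_smul, abs_of_nonneg hu, abs_of_nonneg hv] at h2
    linarith
  have M1 : ∀ c : Fin 3 → ℝ, c 0 + c 1 + c 2 = 1 → p1 = comb p2 p3 p4 c → ∃ i, c i < 0 := by
    intro c hc h
    by_contra hcon
    push Not at hcon
    have e : p2 - p1 = (c 0) • (p2 - p2) + (c 1) • (p2 - p3) + (c 2) • (p2 - p4) := by
      rw [h]
      ext i
      simp only [comb, Pi.add_apply, Pi.smul_apply, Pi.sub_apply, smul_eq_mul]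
      linear_combination (-p2 i) * hc
    have h1 := tri3 (p2 - p2) (p2 - p3) (p2 - p4) _ _ _ (hcon 0) (hcon 1) (hcon 2)
    rw [← e, sub_self, nrm_zero] at h1
    have h2 := tri p2 p3 p4
    rw [nrm_sub_comm p2 p3, nrm_sub_comm p3 p4] at h2
    rw [nrm_sub_comm p2 p3] at h1
    have h3 := he.l1
    have n1 := nrm_nonneg (p3 - p2)
    have n2 := nrm_nonneg (p4 - p3)
    have c0 := hcon 0
    have c1 := hcon 1
    have c2 := hcon 2
    nlinarith [mul_nonneg c2 n1, mul_nonneg c1 n1, mul_nonneg c2 n2, mul_nonneg c1 n2,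
      mul_nonneg c0 n1, mul_nonneg c0 n2, mul_le_mul_of_nonneg_left h2 c2]
  have M2 : ∀ c : Fin 3 → ℝ, c 0 + c 1 + c 2 = 1 → p0 = comb p2 p3 p4 c → ∃ i, c i < 0 := by
    intro c hc h
    by_contra hcon
    push Not at hcon
    have e : p1 - p0 = (c 0) • (p1 - p2) + (c 1) • (p1 - p3) + (c 2) • (p1 - p4) := by
      rw [h]
      ext i
      simp only [comb, Pi.add_apply, Pi.smul_apply, Pi.sub_apply, smul_eq_mul]
      linear_combination (-p1 i) * hc
    have h1 := tri3 (p1 - p2) (p1 - p3) (p1 - p4) _ _ _ (hcon 0) (hcon 1) (hcon 2)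
    rw [← e] at h1
    have h2 := tri p1 p2 p3
    have h3 := tri p1 p3 p4
    rw [nrm_sub_comm p3 p4] at h3
    rw [nrm_sub_comm p2 p3, nrm_sub_comm p1 p2] at h2
    rw [nrm_sub_comm p1 p2] at h1
    have h4 := he.l0
    have n1 := nrm_nonneg (p3 - p2)
    have n2 := nrm_nonneg (p4 - p3)
    have n0 := nrm_nonneg (p2 - p1)
    have c0 := hcon 0
    have c1 := hcon 1
    have c2 := hcon 2
    nlinarith [mul_nonneg c2 n1, mul_nonneg c1 n1, mul_nonneg c2 n2, mul_nonneg c1 n2,
      mul_nonneg c0 n1, mul_nonneg c0 n2, mul_le_mul_of_nonneg_left h2 c1,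
      mul_le_mul_of_nonneg_left (h3.trans (add_le_add_left h2 _)) c2]
  have sp : 0 < s := by
    rcases sn.lt_or_eq with h | h
    · exact h
    · exfalso
      obtain ⟨i, hi⟩ := M1 ![x2, x3, x4] (by simpa using r1) (by
        rw [← h, sub_zero, one_smul, zero_smul, add_zero] at r2
        rw [← r2]; simp [comb])
      fin_cases i <;> simp at hi <;> linarith
  have sl : s < 1 := by
    rcases s1.lt_or_eq with h | h
    · exact h
    · exfalso
      obtain ⟨i, hi⟩ := M2 ![x2, x3, x4] (by simpa using r1) (by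
        rw [h, sub_self, one_smul, zero_smul, zero_add] at r2
        rw [← r2]; simp [comb])
      fin_cases i <;> simp at hi <;> linarith
  have tl : t < 1 := by
    rcases t1.lt_or_eq with h | h
    · exact h
    · exfalso
      rw [h, sub_self, one_smul, zero_smul, zero_add] at r4
      have e : p5 - p4 = y1 • (p1 - p4) + y2 • (p2 - p4) + y3 • (p3 - p4) := by
        rw [← r4]
        ext i
        simp only [Pi.add_apply, Pi.smul_apply, Pi.sub_apply, smul_eq_mul]
        linear_combination (p4 i) * r3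
      have h1 := tri3 (p1 - p4) (p2 - p4) (p3 - p4) _ _ _ y1n y2n y3n
      rw [← e, nrm_sub_comm p3 p4, nrm_sub_comm p2 p4, nrm_sub_comm p1 p4] at h1
      have h2 := tri p4 p3 p2
      have h3 := tri p4 p2 p1
      have h4 := he.l4
      have n1 := nrm_nonneg (p3 - p2)
      have n2 := nrm_nonneg (p4 - p3)
      have n0 := nrm_nonneg (p2 - p1)
      nlinarith [mul_nonneg y1n n1, mul_nonneg y1n n2, mul_nonneg y2n n1, mul_nonneg y2n n2,
        mul_nonneg y3n n1, mul_nonneg y3n n2, mul_le_mul_of_nonneg_left h2 y2n,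
        mul_le_mul_of_nonneg_left (h3.trans (add_le_add_left h2 _)) y1n,
        mul_nonneg y2n n0, mul_nonneg y3n n0]
  -- the four points are not coplanar
  have hD : det3 (p2 - p1) (p3 - p1) (p4 - p1) ≠ 0 := by
    intro hD
    obtain ⟨w, hw, hw2⟩ := det3_eq_zero hD
    set S := w 0 + w 1 + w 2 with hS
    have hw3 : comb p2 p3 p4 w = S • p1 := by
      ext i
      have := congrFun hw2 i
      simp only [comb, Pi.add_apply, Pi.smul_apply, Pi.sub_apply, smul_eq_mul,
        Pi.zero_apply] at this ⊢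
      rw [hS]
      linarith
    have hxpos : ∀ i, 0 < (![x2, x3, x4] : Fin 3 → ℝ) i := by
      intro i
      fin_cases i
      · exact x2p
      · exact x3p
      · exact x4p
    have hxc : comb p2 p3 p4 ![x2, x3, x4] = (1 - s) • p1 + s • p0 := by
      rw [← r2]; simp [comb]
    have lin : ∀ (k : ℝ) (c : Fin 3 → ℝ), comb p2 p3 p4
        (fun i => (1 - k) * (![x2, x3, x4] : Fin 3 → ℝ) i + k * c i) =
        (1 - k) • ((1 - s) • p1 + s • p0) + k • comb p2 p3 p4 c := by
      intro k c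
      rw [← hxc]
      ext i
      simp only [comb, Pi.add_apply, Pi.smul_apply, smul_eq_mul]
      ring
    by_cases hS0 : S = 0
    · -- `p2, p3, p4` collinear
      rw [hS0, zero_smul] at hw3
      have hneg : ∃ i, w i < 0 := by
        by_contra hcon
        push Not at hcon
        apply hw
        have a0 := hcon 0
        have a1 := hcon 1
        have a2 := hcon 2
        ext i
        fin_cases i
        · show w 0 = 0
          linarith
        · show w 1 = 0
          linarith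
        · show w 2 = 0
          linarith
      have hpos : ∃ i, 0 < w i := by
        by_contra hcon
        push Not at hcon
        apply hw
        have a0 := hcon 0
        have a1 := hcon 1
        have a2 := hcon 2
        ext i
        fin_cases i
        · show w 0 = 0
          linarith
        · show w 1 = 0
          linarith
        · show w 2 = 0
          linarith
      obtain ⟨i, hi⟩ := hneg
      obtain ⟨j, hj⟩ := hpos
      have hxi := hxpos i
      have hxj := hxpos j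
      set X := (![x2, x3, x4] : Fin 3 → ℝ) with hX
      -- two multiples
      obtain ⟨T, hT, hT1⟩ : ∃ T : ℝ, 0 < T ∧ X i + T * w i < 0 := by
        refine ⟨(X i + 1) / (-w i), div_pos (by linarith) (by linarith), ?_⟩
        have : (X i + 1) / (-w i) * w i = -(X i + 1) := by
          have := hi.ne
          field_simp
        rw [this]; linarith
      obtain ⟨T', hT', hT1'⟩ : ∃ T : ℝ, 0 < T ∧ X j - T * w j < 0 := by
        refine ⟨(X j + 1) / (w j), div_pos (by linarith) (by linarith), ?_⟩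
        have : (X j + 1) / (w j) * w j = (X j + 1) := by
          have := hj.ne'
          field_simp
        rw [this]; linarith
      have hsumX : X 0 + X 1 + X 2 = 1 := by simpa [hX] using r1
      have hinner : (1 - s) • p1 + s • p0 ∈ segment ℝ p0 p1 := hN1 s sn s1
      have hc1 : comb p2 p3 p4 (fun i => X i - T' * w i) = (1 - s) • p1 + s • p0 := by
        rw [← hxc]
        ext k
        have := congrFun hw3 k
        simp only [comb, Pi.add_apply, Pi.smul_apply, smul_eq_mul, Pi.zero_apply] at this ⊢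
        linear_combination (-T') * this
      have hc2 : comb p2 p3 p4 (fun i => X i + T * w i) = (1 - s) • p1 + s • p0 := by
        rw [← hxc]
        ext k
        have := congrFun hw3 k
        simp only [comb, Pi.add_apply, Pi.smul_apply, smul_eq_mul, Pi.zero_apply] at this ⊢
        linear_combination T * this
      have self : ∀ k : ℝ, (1 - k) • ((1 - s) • p1 + s • p0) + k • ((1 - s) • p1 + s • p0) =
          (1 - s) • p1 + s • p0 := by
        intro k
        rw [← add_smul]; simp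
      refine no_two_exits p2 p3 p4 (segment ℝ p0 p1) X (fun i => X i - T' * w i)
        (fun i => X i + T * w i) (T' / (T + T')) (by positivity)
        (by rw [div_lt_one (by positivity)]; linarith) hxpos hsumX ?_ ?_ ⟨j, hT1'⟩ ⟨i, hT1⟩ ?_ ?_ ?_
        he.h02 he.h03
      · show X 0 - T' * w 0 + (X 1 - T' * w 1) + (X 2 - T' * w 2) = 1
        linear_combination hsumX - T' * hS0 + T' * hS
      · show X 0 + T * w 0 + (X 1 + T * w 1) + (X 2 + T * w 2) = 1
        linear_combination hsumX + T * hS0 - T * hS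
      · show X 1 = (1 - T' / (T + T')) * (X 1 - T' * w 1) + T' / (T + T') * (X 1 + T * w 1)
        field_simp
        ring
      · intro k hk hk1
        rw [lin, hc1, self]
        exact hinner
      · intro k hk hk1
        rw [lin, hc2, self]
        exact hinner
    · -- general case
      have hp1 : p1 = comb p2 p3 p4 (fun i => w i / S) := by
        have : p1 = S⁻¹ • (S • p1) := by rw [smul_smul, inv_mul_cancel₀ hS0, one_smul]
        rw [this, ← hw3]
        ext k
        simp only [comb, Pi.add_apply, Pi.smul_apply, smul_eq_mul]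
        field_simp
      have hsumc : w 0 / S + w 1 / S + w 2 / S = 1 := by
        rw [← add_div, ← add_div, ← hS, div_self hS0]
      have hp0 : p0 = comb p2 p3 p4
          (fun i => ((![x2, x3, x4] : Fin 3 → ℝ) i - (1 - s) * (w i / S)) / s) := by
        have e : s • p0 = comb p2 p3 p4 ![x2, x3, x4] -
            (1 - s) • comb p2 p3 p4 (fun i => w i / S) := by
          rw [← hp1, hxc]; abel
        have : p0 = s⁻¹ • (s • p0) := by rw [smul_smul, inv_mul_cancel₀ sp.ne', one_smul]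
        rw [this, e]
        ext k
        simp only [comb, Pi.add_apply, Pi.smul_apply, Pi.sub_apply, smul_eq_mul]
        have := sp.ne'
        field_simp
        ring
      have hsumX : (![x2, x3, x4] : Fin 3 → ℝ) 0 + (![x2, x3, x4] : Fin 3 → ℝ) 1 +
          (![x2, x3, x4] : Fin 3 → ℝ) 2 = 1 := by simpa using r1
      have hsumc' : ((![x2, x3, x4] : Fin 3 → ℝ) 0 - (1 - s) * (w 0 / S)) / s +
          ((![x2, x3, x4] : Fin 3 → ℝ) 1 - (1 - s) * (w 1 / S)) / s +
          ((![x2, x3, x4] : Fin 3 → ℝ) 2 - (1 - s) * (w 2 / S)) / s = 1 := by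
        have : ((![x2, x3, x4] : Fin 3 → ℝ) 0 - (1 - s) * (w 0 / S)) / s +
          ((![x2, x3, x4] : Fin 3 → ℝ) 1 - (1 - s) * (w 1 / S)) / s +
          ((![x2, x3, x4] : Fin 3 → ℝ) 2 - (1 - s) * (w 2 / S)) / s =
          (((![x2, x3, x4] : Fin 3 → ℝ) 0 + (![x2, x3, x4] : Fin 3 → ℝ) 1 +
          (![x2, x3, x4] : Fin 3 → ℝ) 2) - (1 - s) * (w 0 / S + w 1 / S + w 2 / S)) / s := by
          ring
        rw [this, hsumX, hsumc]
        have := sp.ne'
        field_simp
        ring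
      refine no_two_exits p2 p3 p4 (segment ℝ p0 p1) ![x2, x3, x4] (fun i => w i / S)
        (fun i => ((![x2, x3, x4] : Fin 3 → ℝ) i - (1 - s) * (w i / S)) / s) s sp sl hxpos
        hsumX hsumc hsumc' (M1 _ hsumc hp1) (M2 _ hsumc' hp0) ?_ ?_ ?_ he.h02 he.h03
      · have := sp.ne'
        field_simp
        ring
      · intro k hk hk1
        rw [lin, ← hp1]
        have e : (1 - k) • ((1 - s) • p1 + s • p0) + k • p1 =
            (1 - (1 - k) * s) • p1 + ((1 - k) * s) • p0 := by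
          ext i
          simp only [Pi.add_apply, Pi.smul_apply, smul_eq_mul]
          ring
        rw [e]
        exact hN1 _ (mul_nonneg (by linarith) sn) (mul_le_one₀ (by linarith) sn s1)
      · intro k hk hk1
        rw [lin, ← hp0]
        have e : (1 - k) • ((1 - s) • p1 + s • p0) + k • p0 =
            (1 - ((1 - k) * s + k)) • p1 + ((1 - k) * s + k) • p0 := by
          ext i
          simp only [Pi.add_apply, Pi.smul_apply, smul_eq_mul]
          ring
        rw [e]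
        exact hN1 _ (by nlinarith) (by nlinarith)
  have tp : 0 < t := by
    rcases tn.lt_or_eq with h | h
    · exact h
    · exfalso
      rw [← h, sub_zero, one_smul, zero_smul, add_zero] at r4
      apply hD
      have c : ∀ i, p4 i = y1 * p1 i + y2 * p2 i + y3 * p3 i := by
        intro i
        rw [← r4]; simp
      have hy1 : y1 = 1 - y2 - y3 := by linarith
      simp only [det3, Pi.sub_apply, c, hy1]
      ring
  have hDD : 0 < det3 (p2 - p1) (p3 - p1) (p4 - p1) * det3 (p2 - p1) (p3 - p1) (p4 - p1) :=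
    mul_self_pos.2 hD
  have g0 : ∀ i, s * (p0 - p1) i = x2 * (p2 - p1) i + x3 * (p3 - p1) i + x4 * (p4 - p1) i := by
    intro i
    have := congrFun r2 i
    simp only [Pi.add_apply, Pi.smul_apply, Pi.sub_apply, smul_eq_mul] at this ⊢
    linear_combination -this + (p1 i) * r1
  have g5 : ∀ i, t * (p5 - p1) i = y2 * (p2 - p1) i + y3 * (p3 - p1) i -
      (1 - t) * (p4 - p1) i := by
    intro i
    have := congrFun r4 i
    simp only [Pi.add_apply, Pi.smul_apply, Pi.sub_apply, smul_eq_mul] at this ⊢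
    linear_combination -this + (p1 i) * r3
  set v2 := p2 - p1
  set v3 := p3 - p1
  set v4 := p4 - p1
  set a := p0 - p1
  set f := p5 - p1
  have A2 : det3 a v3 v4 = x2 / s * det3 v2 v3 v4 := by
    have := sp.ne'
    field_simp
    unfold det3
    linear_combination (v3 1 * v4 2 - v3 2 * v4 1) * g0 0 - (v3 0 * v4 2 - v3 2 * v4 0) * g0 1 +
      (v3 0 * v4 1 - v3 1 * v4 0) * g0 2
  have A3 : det3 v2 a v4 = x3 / s * det3 v2 v3 v4 := by
    have := sp.ne'
    field_simp
    unfold det3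
    linear_combination (-(v2 1 * v4 2 - v2 2 * v4 1)) * g0 0 + (v2 0 * v4 2 - v2 2 * v4 0) * g0 1 -
      (v2 0 * v4 1 - v2 1 * v4 0) * g0 2
  have A4 : det3 v2 v3 a = x4 / s * det3 v2 v3 v4 := by
    have := sp.ne'
    field_simp
    unfold det3
    linear_combination (v2 1 * v3 2 - v2 2 * v3 1) * g0 0 - (v2 0 * v3 2 - v2 2 * v3 0) * g0 1 +
      (v2 0 * v3 1 - v2 1 * v3 0) * g0 2
  have F2 : det3 f v3 v4 = y2 / t * det3 v2 v3 v4 := by
    have := tp.ne'
    field_simp
    unfold det3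
    linear_combination (v3 1 * v4 2 - v3 2 * v4 1) * g5 0 - (v3 0 * v4 2 - v3 2 * v4 0) * g5 1 +
      (v3 0 * v4 1 - v3 1 * v4 0) * g5 2
  have F3 : det3 v2 f v4 = y3 / t * det3 v2 v3 v4 := by
    have := tp.ne'
    field_simp
    unfold det3
    linear_combination (-(v2 1 * v4 2 - v2 2 * v4 1)) * g5 0 + (v2 0 * v4 2 - v2 2 * v4 0) * g5 1 -
      (v2 0 * v4 1 - v2 1 * v4 0) * g5 2
  have F4 : det3 v2 v3 f = -((1 - t) / t) * det3 v2 v3 v4 := by
    have := tp.ne'
    field_simp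
    unfold det3
    linear_combination (v2 1 * v3 2 - v2 2 * v3 1) * g5 0 - (v2 0 * v3 2 - v2 2 * v3 0) * g5 1 +
      (v2 0 * v3 1 - v2 1 * v3 0) * g5 2
  unfold OpenCond
  rw [A2, A3, A4, F2, F3, F4]
  set D := det3 v2 v3 v4
  have hsi : 1 < 1 / s := by rw [lt_div_iff₀ sp]; linarith
  refine ⟨hD, ?_, ?_, ?_, ?_, ?_, ?_, ?_, ?_, ?_⟩
  · have : D * (x2 / s * D) = (x2 / s) * (D * D) := by ring
    rw [this]; positivity
  · have : D * (x3 / s * D) = (x3 / s) * (D * D) := by ring
    rw [this]; positivity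
  · have : D * (x4 / s * D) = (x4 / s) * (D * D) := by ring
    rw [this]; positivity
  · have : D * (x2 / s * D + x3 / s * D + x4 / s * D) = (x2 + x3 + x4) / s * (D * D) := by ring
    rw [this, r1]
    nlinarith
  · have : D * (y2 / t * D) = (y2 / t) * (D * D) := by ring
    rw [this]; positivity
  · have : D * (y3 / t * D) = (y3 / t) * (D * D) := by ring
    rw [this]; positivity
  · have : D * (-((1 - t) / t) * D) = -(((1 - t) / t) * (D * D)) := by ring
    rw [this]
    have h1 : 0 < (1 - t) / t := div_pos (by linarith) tp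
    have := mul_pos h1 hDD
    linarith
  · have : D * (y2 / t * D + y3 / t * D + -((1 - t) / t) * D) =
        (D * D) - (1 - y2 - y3) / t * (D * D) := by
      have := tp.ne'
      field_simp
      ring
    rw [this]
    have h1 : 0 < (1 - y2 - y3) / t := div_pos (by linarith) tp
    have := mul_pos h1 hDD
    linarith
  · have e1 : x2 / s * D * (y3 / t * D) = (x2 * y3) * (D * D / (s * t)) := by
      field_simp
    have e2 : x3 / s * D * (y2 / t * D) = (x3 * y2) * (D * D / (s * t)) := by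
      field_simp
    rw [e1, e2]
    exact mul_lt_mul_of_pos_right r5s (by positivity)

/-! ## The dihedral number, invariance and continuity -/

/-- The complex number whose argument is the dihedral angle at the axis `e` from `a` to `b`. -/
noncomputable def dihed (e a b : R3) : ℂ :=
  ⟨(e ⬝ᵥ e) * (a ⬝ᵥ b) - (e ⬝ᵥ a) * (e ⬝ᵥ b), Real.sqrt (e ⬝ᵥ e) * det3 e a b⟩

theorem dot_self_nonneg (e : R3) : 0 ≤ e ⬝ᵥ e := by
  simp only [dotProduct, Fin.sum_univ_three]
  nlinarith [mul_self_nonneg (e 0), mul_self_nonneg (e 1), mul_self_nonneg (e 2)]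

theorem normSq_dihed (e a b : R3) : Complex.normSq (dihed e a b) =
    ((e ⬝ᵥ e) * (a ⬝ᵥ a) - (e ⬝ᵥ a) ^ 2) * ((e ⬝ᵥ e) * (b ⬝ᵥ b) - (e ⬝ᵥ b) ^ 2) := by
  rw [Complex.normSq_apply]
  unfold dihed
  simp only
  have h : Real.sqrt (e ⬝ᵥ e) * Real.sqrt (e ⬝ᵥ e) = e ⬝ᵥ e :=
    Real.mul_self_sqrt (dot_self_nonneg e)
  have h2 : Real.sqrt (e ⬝ᵥ e) * det3 e a b * (Real.sqrt (e ⬝ᵥ e) * det3 e a b) =
      (e ⬝ᵥ e) * (det3 e a b * det3 e a b) := by
    linear_combination (det3 e a b * det3 e a b) * h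
  rw [h2]
  simp only [dotProduct, Fin.sum_univ_three, det3]
  ring

theorem gram_eq (e a : R3) : (e ⬝ᵥ e) * (a ⬝ᵥ a) - (e ⬝ᵥ a) ^ 2 =
    (e 1 * a 2 - e 2 * a 1) ^ 2 + (e 2 * a 0 - e 0 * a 2) ^ 2 +
      (e 0 * a 1 - e 1 * a 0) ^ 2 := by
  simp only [dotProduct, Fin.sum_univ_three]
  ring

theorem dihed_ne_zero {p0 p1 p2 p3 p4 p5 p6 : R3} (ho : OpenCond p0 p1 p2 p3 p4 p5)
    (hne : p0 ≠ p5) (hW : (p6 - p0) ⬝ᵥ (p6 - p0) = (p6 - p5) ⬝ᵥ (p6 - p5))
    (hlt : (p5 - p0) ⬝ᵥ (p5 - p0) < 4 * ((p6 - p0) ⬝ᵥ (p6 - p0))) :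
    dihed (p5 - p0) (p1 - p0) (p6 - p0) ≠ 0 := by
  intro h0
  have h1 := normSq_dihed (p5 - p0) (p1 - p0) (p6 - p0)
  rw [h0, map_zero] at h1
  rcases mul_eq_zero.1 h1.symm with h | h
  · rw [gram_eq] at h
    have s1 := sq_nonneg ((p5 - p0) 1 * (p1 - p0) 2 - (p5 - p0) 2 * (p1 - p0) 1)
    have s2 := sq_nonneg ((p5 - p0) 2 * (p1 - p0) 0 - (p5 - p0) 0 * (p1 - p0) 2)
    have s3 := sq_nonneg ((p5 - p0) 0 * (p1 - p0) 1 - (p5 - p0) 1 * (p1 - p0) 0)
    have c1 : (p5 - p0) 1 * (p1 - p0) 2 - (p5 - p0) 2 * (p1 - p0) 1 = 0 := by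
      have : ((p5 - p0) 1 * (p1 - p0) 2 - (p5 - p0) 2 * (p1 - p0) 1) ^ 2 = 0 := by linarith
      exact pow_eq_zero_iff (two_ne_zero) |>.1 this
    have c2 : (p5 - p0) 2 * (p1 - p0) 0 - (p5 - p0) 0 * (p1 - p0) 2 = 0 := by
      have : ((p5 - p0) 2 * (p1 - p0) 0 - (p5 - p0) 0 * (p1 - p0) 2) ^ 2 = 0 := by linarith
      exact pow_eq_zero_iff (two_ne_zero) |>.1 this
    have c3 : (p5 - p0) 0 * (p1 - p0) 1 - (p5 - p0) 1 * (p1 - p0) 0 = 0 := by
      have : ((p5 - p0) 0 * (p1 - p0) 1 - (p5 - p0) 1 * (p1 - p0) 0) ^ 2 = 0 := by linarith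
      exact pow_eq_zero_iff (two_ne_zero) |>.1 this
    obtain ⟨-, -, -, -, -, -, -, -, -, h9⟩ := ho
    have key : det3 (p0 - p1) (p3 - p1) (p4 - p1) * det3 (p2 - p1) (p5 - p1) (p4 - p1) -
        det3 (p2 - p1) (p0 - p1) (p4 - p1) * det3 (p5 - p1) (p3 - p1) (p4 - p1) =
        det3 (p2 - p1) (p3 - p1) (p4 - p1) *
          (((p5 - p0) 1 * (p1 - p0) 2 - (p5 - p0) 2 * (p1 - p0) 1) * (p4 - p1) 0 +
          ((p5 - p0) 2 * (p1 - p0) 0 - (p5 - p0) 0 * (p1 - p0) 2) * (p4 - p1) 1 +
          ((p5 - p0) 0 * (p1 - p0) 1 - (p5 - p0) 1 * (p1 - p0) 0) * (p4 - p1) 2) := by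
      simp only [det3, Pi.sub_apply]
      ring
    rw [c1, c2, c3] at key
    simp only [zero_mul, add_zero, mul_zero] at key
    linarith
  · have hpos : 0 < (p5 - p0) ⬝ᵥ (p5 - p0) := by
      rcases (dot_self_nonneg (p5 - p0)).lt_or_eq with h | h
      · exact h
      · exfalso
        apply hne
        have := dotProduct_self_eq_zero.1 h.symm
        exact (sub_eq_zero.1 this).symm
    have e1 : (p5 - p0) ⬝ᵥ (p5 - p0) = 2 * ((p5 - p0) ⬝ᵥ (p6 - p0)) := by
      simp only [dotProduct, Fin.sum_univ_three, Pi.sub_apply] at hW ⊢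
      linarith
    have e2 : (p5 - p0) ⬝ᵥ (p6 - p0) = ((p5 - p0) ⬝ᵥ (p5 - p0)) / 2 := by linarith
    rw [e2] at h
    nlinarith [mul_pos hpos (sub_pos.2 hlt)]

section rot

variable {A : Matrix (Fin 3) (Fin 3) ℝ}

theorem dot_rot (hA : A ∈ Matrix.specialOrthogonalGroup (Fin 3) ℝ) (x y : R3) :
    (A *ᵥ x) ⬝ᵥ (A *ᵥ y) = x ⬝ᵥ y := by
  rw [Matrix.mem_specialOrthogonalGroup_iff] at hA
  have h2 := (Matrix.mem_orthogonalGroup_iff' (Fin 3) ℝ).1 hA.1
  have h3 : Aᵀ * A = 1 := by simpa [Matrix.star_eq_conjTranspose] using h2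
  rw [Matrix.dotProduct_mulVec, Matrix.vecMul_mulVec, h3, Matrix.vecMul_one]

theorem det3_rot (hA : A ∈ Matrix.specialOrthogonalGroup (Fin 3) ℝ) (x y z : R3) :
    det3 (A *ᵥ x) (A *ᵥ y) (A *ᵥ z) = det3 x y z := by
  rw [Matrix.mem_specialOrthogonalGroup_iff] at hA
  have h := hA.2
  rw [Matrix.det_fin_three] at h
  have : det3 (A *ᵥ x) (A *ᵥ y) (A *ᵥ z) = (A 0 0 * A 1 1 * A 2 2 - A 0 0 * A 1 2 * A 2 1 -
      A 0 1 * A 1 0 * A 2 2 + A 0 1 * A 1 2 * A 2 0 + A 0 2 * A 1 0 * A 2 1 -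
      A 0 2 * A 1 1 * A 2 0) * det3 x y z := by
    simp only [det3, Matrix.mulVec, dotProduct, Fin.sum_univ_three]
    ring
  rw [this, h, one_mul]

theorem dihed_rot (hA : A ∈ Matrix.specialOrthogonalGroup (Fin 3) ℝ) (x y z : R3) :
    dihed (A *ᵥ x) (A *ᵥ y) (A *ᵥ z) = dihed x y z := by
  unfold dihed
  rw [det3_rot hA, dot_rot hA, dot_rot hA, dot_rot hA, dot_rot hA]

theorem openCond_rot (hA : A ∈ Matrix.specialOrthogonalGroup (Fin 3) ℝ)
    {p0 p1 p2 p3 p4 p5 : R3} (h : OpenCond p0 p1 p2 p3 p4 p5) :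
    OpenCond (A *ᵥ p0) (A *ᵥ p1) (A *ᵥ p2) (A *ᵥ p3) (A *ᵥ p4) (A *ᵥ p5) := by
  unfold OpenCond at h ⊢
  simpa only [← Matrix.mulVec_sub, det3_rot hA] using h

theorem closedCond_rot {p0 p1 p2 p3 p4 p5 : R3} (h : ClosedCond p0 p1 p2 p3 p4 p5) :
    ClosedCond (A *ᵥ p0) (A *ᵥ p1) (A *ᵥ p2) (A *ᵥ p3) (A *ᵥ p4) (A *ᵥ p5) := by
  obtain ⟨q, r1, r3, r2, r4, r5⟩ := h
  refine ⟨q, r1, r3, ?_, ?_, r5⟩
  · have := congrArg (fun z => A *ᵥ z) r2
    simpa only [Matrix.mulVec_add, Matrix.mulVec_smul] using this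
  · have := congrArg (fun z => A *ᵥ z) r4
    simpa only [Matrix.mulVec_add, Matrix.mulVec_smul] using this

end rot

section cont

variable {Y : Type*} [TopologicalSpace Y]

theorem continuous_det3 {f g h : Y → R3} (hf : Continuous f) (hg : Continuous g)
    (hh : Continuous h) : Continuous fun y => det3 (f y) (g y) (h y) := by
  unfold det3
  fun_prop

theorem continuous_dihed {f g h : Y → R3} (hf : Continuous f) (hg : Continuous g)
    (hh : Continuous h) : Continuous fun y => dihed (f y) (g y) (h y) := by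
  have e : ∀ y, dihed (f y) (g y) (h y) =
      (((f y ⬝ᵥ f y) * (g y ⬝ᵥ h y) - (f y ⬝ᵥ g y) * (f y ⬝ᵥ h y) : ℝ) : ℂ) +
      ((Real.sqrt (f y ⬝ᵥ f y) * det3 (f y) (g y) (h y) : ℝ) : ℂ) * Complex.I := by
    intro y
    apply Complex.ext <;> simp [dihed]
  simp only [e]
  have := continuous_det3 hf hg hh
  have d : ∀ {u v : Y → R3}, Continuous u → Continuous v → Continuous fun y => u y ⬝ᵥ v y := by
    intro u v hu hv
    simp only [dotProduct]
    fun_prop
  have d1 := d hf hf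
  have d2 := d hg hh
  have d3 := d hf hg
  have d4 := d hf hh
  have d5 : Continuous fun y => Real.sqrt (f y ⬝ᵥ f y) := Real.continuous_sqrt.comp d1
  exact (Complex.continuous_ofReal.comp ((d1.mul d2).sub (d3.mul d4))).add
    ((Complex.continuous_ofReal.comp (d5.mul this)).mul continuous_const)

theorem isOpen_openCond {f0 f1 f2 f3 f4 f5 : Y → R3} (h0 : Continuous f0) (h1 : Continuous f1)
    (h2 : Continuous f2) (h3 : Continuous f3) (h4 : Continuous f4) (h5 : Continuous f5) :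
    IsOpen {y | OpenCond (f0 y) (f1 y) (f2 y) (f3 y) (f4 y) (f5 y)} := by
  unfold OpenCond
  have D := continuous_det3 (h2.sub h1) (h3.sub h1) (h4.sub h1)
  have A2 := continuous_det3 (h0.sub h1) (h3.sub h1) (h4.sub h1)
  have A3 := continuous_det3 (h2.sub h1) (h0.sub h1) (h4.sub h1)
  have A4 := continuous_det3 (h2.sub h1) (h3.sub h1) (h0.sub h1)
  have F2 := continuous_det3 (h5.sub h1) (h3.sub h1) (h4.sub h1)
  have F3 := continuous_det3 (h2.sub h1) (h5.sub h1) (h4.sub h1)
  have F4 := continuous_det3 (h2.sub h1) (h3.sub h1) (h5.sub h1)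
  refine (isOpen_ne_fun D continuous_const).inter ((isOpen_lt continuous_const (D.mul A2)).inter
    ((isOpen_lt continuous_const (D.mul A3)).inter ((isOpen_lt continuous_const (D.mul A4)).inter
    ((isOpen_lt (D.mul D) (D.mul ((A2.add A3).add A4))).inter
    ((isOpen_lt continuous_const (D.mul F2)).inter ((isOpen_lt continuous_const (D.mul F3)).inter
    ((isOpen_lt (D.mul F4) continuous_const).inter
    ((isOpen_lt (D.mul ((F2.add F3).add F4)) (D.mul D)).inter
    (isOpen_lt (A2.mul F3) (A3.mul F2))))))))))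

theorem isClosed_closedCond {f0 f1 f2 f3 f4 f5 : Y → R3} (h0 : Continuous f0)
    (h1 : Continuous f1) (h2 : Continuous f2) (h3 : Continuous f3) (h4 : Continuous f4)
    (h5 : Continuous f5) :
    IsClosed {y | ClosedCond (f0 y) (f1 y) (f2 y) (f3 y) (f4 y) (f5 y)} := by
  have hC : IsClosed {z : (Fin 8 → unitInterval) × Y |
      ClosedRel (fun i => (z.1 i : ℝ)) (f0 z.2) (f1 z.2) (f2 z.2) (f3 z.2) (f4 z.2) (f5 z.2)} := by
    unfold ClosedRel
    have q : ∀ i, Continuous fun z : (Fin 8 → unitInterval) × Y => (z.1 i : ℝ) := fun i =>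
      continuous_subtype_val.comp ((continuous_apply i).comp continuous_fst)
    have g0 := h0.comp (continuous_snd (X := Fin 8 → unitInterval) (Y := Y))
    have g1 := h1.comp (continuous_snd (X := Fin 8 → unitInterval) (Y := Y))
    have g2 := h2.comp (continuous_snd (X := Fin 8 → unitInterval) (Y := Y))
    have g3 := h3.comp (continuous_snd (X := Fin 8 → unitInterval) (Y := Y))
    have g4 := h4.comp (continuous_snd (X := Fin 8 → unitInterval) (Y := Y))
    have g5 := h5.comp (continuous_snd (X := Fin 8 → unitInterval) (Y := Y))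
    refine (isClosed_eq (((q 0).add (q 1)).add (q 2)) continuous_const).inter
      ((isClosed_eq (((q 4).add (q 5)).add (q 6)) continuous_const).inter
      ((isClosed_eq ((((q 0).smul g2).add ((q 1).smul g3)).add ((q 2).smul g4))
        (((continuous_const.sub (q 3)).smul g1).add ((q 3).smul g0))).inter
      ((isClosed_eq ((((q 4).smul g1).add ((q 5).smul g2)).add ((q 6).smul g3))
        (((continuous_const.sub (q 7)).smul g4).add ((q 7).smul g5))).inter
      (isClosed_le ((q 0).mul (q 6)) ((q 1).mul (q 5))))))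
  have := isClosedMap_snd_of_compactSpace _ hC
  convert this using 1
  ext y
  constructor
  · rintro ⟨q, hq⟩
    exact ⟨(q, y), hq, rfl⟩
  · rintro ⟨⟨q, y'⟩, hq, rfl⟩
    exact ⟨q, hq⟩

end cont

/-! ## The polygon space -/

section basics

variable {n : ℕ} {l : Fin n → ℝ}

theorem vertex_rot {u v : Chain l} {A : Matrix (Fin 3) (Fin 3) ℝ}
    (h : ∀ i, (v.1 i : R3) = A *ᵥ (u.1 i : R3)) (k : ℕ) : vertex v k = A *ᵥ vertex u k := by
  unfold vertex
  rw [Matrix.mulVec_sum]
  refine Finset.sum_congr rfl fun i _ => ?_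
  rw [h i, Matrix.mulVec_smul]

theorem edge_rot {u v : Chain l} {A : Matrix (Fin 3) (Fin 3) ℝ}
    (h : ∀ i, (v.1 i : R3) = A *ᵥ (u.1 i : R3)) {k : ℕ} {x : R3} (hx : x ∈ edge u k) :
    A *ᵥ x ∈ edge v k := by
  obtain ⟨a, b, ha, hb, hab, rfl⟩ := hx
  refine ⟨a, b, ha, hb, hab, ?_⟩
  rw [vertex_rot h, vertex_rot h, Matrix.mulVec_add, Matrix.mulVec_smul, Matrix.mulVec_smul]

theorem rot_injective {A : Matrix (Fin 3) (Fin 3) ℝ}
    (hA : A ∈ Matrix.specialOrthogonalGroup (Fin 3) ℝ) {x y : R3} (h : A *ᵥ x = A *ᵥ y) :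
    x = y := by
  rw [Matrix.mem_specialOrthogonalGroup_iff] at hA
  have h2 := (Matrix.mem_orthogonalGroup_iff' (Fin 3) ℝ).1 hA.1
  have h3 : Aᵀ * A = 1 := by simpa [Matrix.star_eq_conjTranspose] using h2
  have := congrArg (fun z => Aᵀ *ᵥ z) h
  simpa [Matrix.mulVec_mulVec, h3] using this

theorem selfIntersecting_rot {u v : Chain l} (h : (rotSetoid l).r u v)
    (hu : SelfIntersecting u) : SelfIntersecting v := by
  obtain ⟨A, hA, h⟩ := h
  rcases hu with ⟨i, j, h1, h2, h3, x, hx1, hx2⟩ | ⟨i, h1, x, ⟨hx1, hx2⟩, hx⟩ | ⟨x, ⟨hx1, hx2⟩, hx⟩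
  · exact Or.inl ⟨i, j, h1, h2, h3, A *ᵥ x, edge_rot h hx1, edge_rot h hx2⟩
  · refine Or.inr (Or.inl ⟨i, h1, A *ᵥ x, ⟨edge_rot h hx1, edge_rot h hx2⟩, fun he => hx ?_⟩)
    rw [vertex_rot h] at he
    exact rot_injective hA he
  · refine Or.inr (Or.inr ⟨A *ᵥ x, ⟨edge_rot h hx1, edge_rot h hx2⟩, fun he => hx ?_⟩)
    rw [vertex_rot h] at he
    exact rot_injective hA he

theorem mk_mem_X_iff (u : Chain l) : cls u ∈ X l ↔ SelfIntersecting u := by
  constructor
  · rintro ⟨v, hv, h⟩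
    exact selfIntersecting_rot (Quotient.exact h) hv
  · intro h
    exact ⟨u, h, rfl⟩

theorem continuous_vertex (k : ℕ) : Continuous fun u : Chain l => vertex u k := by
  unfold vertex
  refine continuous_finsetSum _ fun i _ => ?_
  have h : Continuous fun u : Chain l => (u.1 i : R3) :=
    continuous_subtype_val.comp ((continuous_apply i).comp continuous_subtype_val)
  exact h.const_smul (l i)

theorem vertex_zero (u : Chain l) : vertex u 0 = 0 := by
  simp [vertex]

theorem vertex_succ (u : Chain l) (k : Fin n) :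
    vertex u (k.val + 1) = vertex u k.val + l k • (u.1 k : R3) := by
  unfold vertex
  have : (Finset.univ.filter fun i : Fin n => i.val < k.val + 1) =
      insert k (Finset.univ.filter fun i : Fin n => i.val < k.val) := by
    ext i
    simp only [Finset.mem_filter, Finset.mem_univ, true_and, Finset.mem_insert, Fin.ext_iff]
    omega
  rw [this, Finset.sum_insert (by simp), add_comm]

theorem vertex_last (u : Chain l) : vertex u n = 0 := by
  unfold vertex
  have : (Finset.univ.filter fun i : Fin n => i.val < n) = Finset.univ := by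
    ext i; simp
  rw [this]
  exact u.2

theorem nrm_edge (u : Chain l) (k : Fin n) (hk : 0 < l k) :
    nrm (vertex u (k.val + 1) - vertex u k.val) = l k := by
  rw [vertex_succ, add_sub_cancel_left, nrm_smul, abs_of_pos hk]
  have h1 := nrm_sq (u.1 k : R3)
  rw [(u.1 k).2] at h1
  have h2 := nrm_nonneg (u.1 k : R3)
  have h3 : nrm (u.1 k : R3) = 1 := by nlinarith
  rw [h3, mul_one]

theorem isQuotientMap_cls : Topology.IsQuotientMap (cls (l := l)) :=
  isQuotientMap_quotient_mk'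

/-- A rotation-invariant condition defines a subset of the polygon space. -/
def descend (P : Chain l → Prop) : Set (PolygonSpace l) :=
  {m | ∃ u : Chain l, P u ∧ cls u = m}

theorem mk_mem_descend {P : Chain l → Prop} (hP : ∀ u v, (rotSetoid l).r u v → P u → P v)
    (u : Chain l) : cls u ∈ descend P ↔ P u := by
  constructor
  · rintro ⟨v, hv, h⟩
    exact hP v u (Quotient.exact h) hv
  · intro h
    exact ⟨u, h, rfl⟩

theorem isOpen_descend {P : Chain l → Prop} (hP : ∀ u v, (rotSetoid l).r u v → P u → P v)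
    (ho : IsOpen {u | P u}) : IsOpen (descend P) := by
  rw [← isQuotientMap_cls.isOpen_preimage]
  convert ho using 1
  ext u
  exact mk_mem_descend hP u

theorem isClosed_descend {P : Chain l → Prop} (hP : ∀ u v, (rotSetoid l).r u v → P u → P v)
    (ho : IsClosed {u | P u}) : IsClosed (descend P) := by
  rw [← isQuotientMap_cls.isClosed_preimage]
  convert ho using 1
  ext u
  exact mk_mem_descend hP u

end basics

section seven

variable {l : Fin 7 → ℝ}

/-- The open condition for a chain. -/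
def OC (u : Chain l) : Prop :=
  OpenCond (vertex u 0) (vertex u 1) (vertex u 2) (vertex u 3) (vertex u 4) (vertex u 5)

/-- The closed condition for a chain. -/
def CC (u : Chain l) : Prop :=
  ClosedCond (vertex u 0) (vertex u 1) (vertex u 2) (vertex u 3) (vertex u 4) (vertex u 5)

/-- The dihedral number of a chain. -/
noncomputable def dih (u : Chain l) : ℂ :=
  dihed (vertex u 5 - vertex u 0) (vertex u 1 - vertex u 0) (vertex u 6 - vertex u 0)

theorem OC_rot (u v : Chain l) (h : (rotSetoid l).r u v) (hu : OC u) : OC v := by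
  obtain ⟨A, hA, h⟩ := h
  unfold OC at hu ⊢
  simp only [vertex_rot h]
  exact openCond_rot hA hu

theorem CC_rot (u v : Chain l) (h : (rotSetoid l).r u v) (hu : CC u) : CC v := by
  obtain ⟨A, hA, h⟩ := h
  unfold CC at hu ⊢
  simp only [vertex_rot h]
  exact closedCond_rot hu

theorem dih_rot (u v : Chain l) (h : (rotSetoid l).r u v) : dih u = dih v := by
  obtain ⟨A, hA, h⟩ := h
  unfold dih
  simp only [vertex_rot h, ← Matrix.mulVec_sub]
  exact (dihed_rot hA _ _ _).symm

/-- The dihedral number as a function on the polygon space. -/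
noncomputable def dihQ : PolygonSpace l → ℂ := Quotient.lift dih dih_rot

theorem continuous_dihQ : Continuous (dihQ (l := l)) := by
  refine Continuous.quotient_lift ?_ _
  exact continuous_dihed ((continuous_vertex 5).sub (continuous_vertex 0))
    ((continuous_vertex 1).sub (continuous_vertex 0))
    ((continuous_vertex 6).sub (continuous_vertex 0))

theorem isOpen_OC : IsOpen (descend (OC (l := l))) :=
  isOpen_descend OC_rot (isOpen_openCond (continuous_vertex 0) (continuous_vertex 1)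
    (continuous_vertex 2) (continuous_vertex 3) (continuous_vertex 4) (continuous_vertex 5))

theorem isClosed_CC : IsClosed (descend (CC (l := l))) :=
  isClosed_descend CC_rot (isClosed_closedCond (continuous_vertex 0) (continuous_vertex 1)
    (continuous_vertex 2) (continuous_vertex 3) (continuous_vertex 4) (continuous_vertex 5))

/-- The conditions on the seven lengths. -/
structure Lens (l : Fin 7 → ℝ) : Prop where
  pos : ∀ i, 0 < l i
  h1 : l 2 + l 3 < l 1
  h0 : l 1 + l 2 + l 3 < l 0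
  h4 : l 1 + l 2 + l 3 < l 4
  h56 : l 5 = l 6
  hsum : l 0 + l 1 + l 2 + l 3 + l 4 < 2 * l 5

theorem emb_of (hl : Lens l) (u : Chain l) (hu : ¬ SelfIntersecting u) :
    Emb (vertex u 0) (vertex u 1) (vertex u 2) (vertex u 3) (vertex u 4) (vertex u 5) := by
  have n0 := nrm_edge u 0 (hl.pos 0)
  have n1 := nrm_edge u 1 (hl.pos 1)
  have n2 := nrm_edge u 2 (hl.pos 2)
  have n3 := nrm_edge u 3 (hl.pos 3)
  have n4 := nrm_edge u 4 (hl.pos 4)
  simp only [Fin.coe_ofNat_eq_mod, Nat.reduceMod, Nat.reduceAdd, zero_add] at n0 n1 n2 n3 n4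
  have key : ∀ i j : ℕ, j < 7 → i + 2 ≤ j → j + 2 ≤ i + 7 →
      ∀ z ∈ edge u i, z ∉ edge u j := by
    intro i j h1 h2 h3 z hz hz'
    exact hu (Or.inl ⟨i, j, h1, h2, h3, z, hz, hz'⟩)
  refine ⟨key 0 2 (by norm_num) (by norm_num) (by norm_num),
    key 0 3 (by norm_num) (by norm_num) (by norm_num),
    key 0 4 (by norm_num) (by norm_num) (by norm_num),
    key 1 4 (by norm_num) (by norm_num) (by norm_num),
    key 2 4 (by norm_num) (by norm_num) (by norm_num), ?_, ?_, ?_⟩
  · rw [n1, n2, n3]; exact hl.h1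
  · rw [n0, n1, n2, n3]; exact hl.h0
  · rw [n4, n1, n2, n3]; exact hl.h4

theorem dih_ne_zero (hl : Lens l) (u : Chain l) (hu : ¬ SelfIntersecting u) (ho : OC u) :
    dih u ≠ 0 := by
  have he := emb_of hl u hu
  have n0 := nrm_edge u 0 (hl.pos 0)
  have n1 := nrm_edge u 1 (hl.pos 1)
  have n2 := nrm_edge u 2 (hl.pos 2)
  have n3 := nrm_edge u 3 (hl.pos 3)
  have n4 := nrm_edge u 4 (hl.pos 4)
  have n5 := nrm_edge u 5 (hl.pos 5)
  have n6 := nrm_edge u 6 (hl.pos 6)
  simp only [Fin.coe_ofNat_eq_mod, Nat.reduceMod, Nat.reduceAdd, zero_add] at n0 n1 n2 n3 n4 n5 n6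
  rw [vertex_last u, zero_sub, nrm_neg] at n6
  have v0 := vertex_zero u
  refine dihed_ne_zero ho ?_ ?_ ?_
  · intro h
    refine he.h04 (vertex u 0) (left_mem_segment ℝ _ _) ?_
    rw [h]
    exact right_mem_segment ℝ _ _
  · rw [← nrm_sq, ← nrm_sq, v0, sub_zero, n6, n5, hl.h56]
  · have t1 := nrm_add_le (vertex u 1 - vertex u 0) (vertex u 2 - vertex u 1)
    have t2 := nrm_add_le (vertex u 2 - vertex u 0) (vertex u 3 - vertex u 2)
    have t3 := nrm_add_le (vertex u 3 - vertex u 0) (vertex u 4 - vertex u 3)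
    have t4 := nrm_add_le (vertex u 4 - vertex u 0) (vertex u 5 - vertex u 4)
    rw [sub_add_sub_cancel'] at t1 t2 t3 t4
    rw [← nrm_sq, ← nrm_sq]
    have n6' : nrm (vertex u 6 - vertex u 0) = l 6 := by rw [v0, sub_zero, n6]
    rw [n6', ← hl.h56]
    have hs := hl.hsum
    have hn := nrm_nonneg (vertex u 5 - vertex u 0)
    have hlt : nrm (vertex u 5 - vertex u 0) < 2 * l 5 := by linarith
    nlinarith

/-- The component of a locked polygon consists of locked polygons. -/
theorem component_subset (hl : Lens l) (m : PolygonSpace l)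
    (hO : m ∈ descend (OC (l := l))) :
    connectedComponentIn (X l)ᶜ m ⊆ descend (OC (l := l)) := by
  by_cases hm : m ∈ (X l)ᶜ
  · have hpre : IsPreconnected (connectedComponentIn (X l)ᶜ m) :=
      isPreconnected_connectedComponentIn
    refine hpre.subset_left_of_subset_union isOpen_OC isClosed_CC.isOpen_compl ?_ ?_
      ⟨m, mem_connectedComponentIn hm, hO⟩
    · rw [Set.disjoint_compl_right_iff_subset]
      rintro _ ⟨u, hu, rfl⟩
      exact ⟨u, closedCond_of_openCond hu, rfl⟩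
    · intro z hz
      have hzX : z ∈ (X l)ᶜ := connectedComponentIn_subset _ _ hz
      by_cases hzC : z ∈ descend (CC (l := l))
      · left
        obtain ⟨u, hu, rfl⟩ := hzC
        refine ⟨u, openCond_of_closedCond hu (emb_of hl u fun hs => hzX ?_), rfl⟩
        exact ⟨u, hs, rfl⟩
      · right
        exact hzC
  · rw [connectedComponentIn_eq_empty hm]
    exact Set.empty_subset _

theorem dihQ_ne_zero (hl : Lens l) (m : PolygonSpace l) (hm : m ∈ (X l)ᶜ)
    (hO : m ∈ descend (OC (l := l))) : dihQ m ≠ 0 := by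
  obtain ⟨u, hu, rfl⟩ := hO
  exact dih_ne_zero hl u (fun hs => hm ⟨u, hs, rfl⟩) hu

end seven

/-! ## The example -/

/-- The seven lengths of the example. -/
noncomputable def exL : Fin 7 → ℝ := ![14, 7, 3, 3, 15, 26, 26]

/-- The edge vectors of the example. -/
noncomputable def exD (θ : ℝ) : Fin 7 → R3 :=
  ![![12, 6, 4], ![-6, -2, -3], ![2, -1, 2], ![-2, 2, -1], ![14, -5, -2],
    ![-10, 24 * Real.cos θ, 24 * Real.sin θ], ![-10, -(24 * Real.cos θ), -(24 * Real.sin θ)]]

/-- The vertices of the example. -/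
noncomputable def exP (θ : ℝ) : ℕ → R3
  | 0 => ![0, 0, 0]
  | 1 => ![12, 6, 4]
  | 2 => ![6, 4, 1]
  | 3 => ![8, 3, 3]
  | 4 => ![6, 5, 2]
  | 5 => ![20, 0, 0]
  | 6 => ![10, 24 * Real.cos θ, 24 * Real.sin θ]
  | _ => ![0, 0, 0]

theorem lens_exL : Lens exL := by
  refine ⟨fun i => ?_, ?_, ?_, ?_, ?_, ?_⟩
  · fin_cases i <;> simp [exL]
  · simp [exL]; norm_num
  · simp [exL]; norm_num
  · simp [exL]; norm_num
  · simp [exL]
  · simp [exL]; norm_num

theorem exD_sq (θ : ℝ) (i : Fin 7) : exD θ i ⬝ᵥ exD θ i = exL i ^ 2 := by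
  have h := Real.sin_sq_add_cos_sq θ
  fin_cases i
  · simp [exD, exL, dotProduct, Fin.sum_univ_three]; norm_num
  · simp [exD, exL, dotProduct, Fin.sum_univ_three]; norm_num
  · simp [exD, exL, dotProduct, Fin.sum_univ_three]; norm_num
  · simp [exD, exL, dotProduct, Fin.sum_univ_three]; norm_num
  · simp [exD, exL, dotProduct, Fin.sum_univ_three]; norm_num
  · simp [exD, exL, dotProduct, Fin.sum_univ_three]
    nlinarith
  · simp [exD, exL, dotProduct, Fin.sum_univ_three]
    nlinarith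

/-- The unit vectors of the example. -/
noncomputable def exU (θ : ℝ) (i : Fin 7) : S2 :=
  ⟨(exL i)⁻¹ • exD θ i, by
    have hpos := lens_exL.pos i
    rw [smul_dotProduct, dotProduct_smul, exD_sq]
    simp only [smul_eq_mul]
    field_simp⟩

theorem exL_smul (θ : ℝ) (i : Fin 7) : exL i • (exU θ i : R3) = exD θ i := by
  have hpos := lens_exL.pos i
  show exL i • ((exL i)⁻¹ • exD θ i) = exD θ i
  rw [smul_smul, mul_inv_cancel₀ hpos.ne', one_smul]

/-- The closed chains of the example. -/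
noncomputable def exC (θ : ℝ) : Chain exL :=
  ⟨exU θ, by
    simp only [exL_smul]
    ext j
    fin_cases j
    · simp [Fin.sum_univ_succ, exD]; norm_num
    · simp [Fin.sum_univ_succ, exD]; norm_num
    · simp [Fin.sum_univ_succ, exD]; norm_num⟩

theorem continuous_exC : Continuous exC := by
  refine Continuous.subtype_mk (continuous_pi fun i => Continuous.subtype_mk ?_ _) _
  have h : Continuous fun θ : ℝ => exD θ i := by
    unfold exD
    refine continuous_pi fun j => ?_
    fin_cases i <;> fin_cases j <;> simp <;> fun_prop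
  exact h.const_smul ((exL i)⁻¹)

theorem vertex_exC (θ : ℝ) : ∀ k : ℕ, k ≤ 7 → vertex (exC θ) k = exP θ k := by
  have v0 : vertex (exC θ) 0 = exP θ 0 := by
    rw [vertex_zero]; ext j; fin_cases j <;> simp [exP]
  have step : ∀ k : Fin 7, vertex (exC θ) k.val = exP θ k.val →
      exP θ k.val + exD θ k = exP θ (k.val + 1) →
      vertex (exC θ) (k.val + 1) = exP θ (k.val + 1) := by
    intro k h1 h2
    rw [vertex_succ, h1, ← h2]
    congr 1
    exact exL_smul θ k
  have v1 := step 0 v0 (by ext j; fin_cases j <;> simp [exP, exD])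
  have v2 := step 1 v1 (by ext j; fin_cases j <;> simp [exP, exD] <;> norm_num)
  have v3 := step 2 v2 (by ext j; fin_cases j <;> simp [exP, exD] <;> norm_num)
  have v4 := step 3 v3 (by ext j; fin_cases j <;> simp [exP, exD] <;> norm_num)
  have v5 := step 4 v4 (by ext j; fin_cases j <;> simp [exP, exD] <;> norm_num)
  have v6 := step 5 v5 (by ext j; fin_cases j <;> simp [exP, exD] <;> norm_num)
  have v7 := step 6 v6 (by ext j; fin_cases j <;> simp [exP, exD])
  intro k hk
  interval_cases k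
  · exact v0
  · exact v1
  · exact v2
  · exact v3
  · exact v4
  · exact v5
  · exact v6
  · exact v7

theorem mem_segment_coord {a b z : R3} (h : z ∈ segment ℝ a b) :
    ∃ t : ℝ, 0 ≤ t ∧ t ≤ 1 ∧ ∀ j, z j = a j + t * (b j - a j) := by
  obtain ⟨c, d, hc, hd, hcd, rfl⟩ := h
  refine ⟨d, hd, by linarith, fun j => ?_⟩
  simp only [Pi.add_apply, Pi.smul_apply, smul_eq_mul]
  linear_combination (a j) * hcd

section edges

variable {θ : ℝ} {z : R3}

theorem ed0 (h : z ∈ edge (exC θ) 0) :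
    ∃ t : ℝ, 0 ≤ t ∧ t ≤ 1 ∧ z 0 = 12 * t ∧ z 1 = 6 * t ∧ z 2 = 4 * t := by
  unfold edge at h
  rw [vertex_exC θ 0 (by norm_num), vertex_exC θ (0 + 1) (by norm_num)] at h
  obtain ⟨t, h0, h1, h2⟩ := mem_segment_coord h
  refine ⟨t, h0, h1, ?_, ?_, ?_⟩ <;> rw [h2] <;> simp [exP] <;> ring

theorem ed1 (h : z ∈ edge (exC θ) 1) :
    ∃ t : ℝ, 0 ≤ t ∧ t ≤ 1 ∧ z 0 = 12 - 6 * t ∧ z 1 = 6 - 2 * t ∧ z 2 = 4 - 3 * t := by
  unfold edge at h
  rw [vertex_exC θ 1 (by norm_num), vertex_exC θ (1 + 1) (by norm_num)] at h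
  obtain ⟨t, h0, h1, h2⟩ := mem_segment_coord h
  refine ⟨t, h0, h1, ?_, ?_, ?_⟩ <;> rw [h2] <;> simp [exP] <;> ring

theorem ed2 (h : z ∈ edge (exC θ) 2) :
    ∃ t : ℝ, 0 ≤ t ∧ t ≤ 1 ∧ z 0 = 6 + 2 * t ∧ z 1 = 4 - t ∧ z 2 = 1 + 2 * t := by
  unfold edge at h
  rw [vertex_exC θ 2 (by norm_num), vertex_exC θ (2 + 1) (by norm_num)] at h
  obtain ⟨t, h0, h1, h2⟩ := mem_segment_coord h
  refine ⟨t, h0, h1, ?_, ?_, ?_⟩ <;> rw [h2] <;> simp [exP] <;> ring

theorem ed3 (h : z ∈ edge (exC θ) 3) :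
    ∃ t : ℝ, 0 ≤ t ∧ t ≤ 1 ∧ z 0 = 8 - 2 * t ∧ z 1 = 3 + 2 * t ∧ z 2 = 3 - t := by
  unfold edge at h
  rw [vertex_exC θ 3 (by norm_num), vertex_exC θ (3 + 1) (by norm_num)] at h
  obtain ⟨t, h0, h1, h2⟩ := mem_segment_coord h
  refine ⟨t, h0, h1, ?_, ?_, ?_⟩ <;> rw [h2] <;> simp [exP] <;> ring

theorem ed4 (h : z ∈ edge (exC θ) 4) :
    ∃ t : ℝ, 0 ≤ t ∧ t ≤ 1 ∧ z 0 = 6 + 14 * t ∧ z 1 = 5 - 5 * t ∧ z 2 = 2 - 2 * t := by
  unfold edge at h
  rw [vertex_exC θ 4 (by norm_num), vertex_exC θ (4 + 1) (by norm_num)] at h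
  obtain ⟨t, h0, h1, h2⟩ := mem_segment_coord h
  refine ⟨t, h0, h1, ?_, ?_, ?_⟩ <;> rw [h2] <;> simp [exP] <;> ring

theorem ed5 (h : z ∈ edge (exC θ) 5) :
    ∃ t : ℝ, 0 ≤ t ∧ t ≤ 1 ∧ z 0 = 20 - 10 * t ∧ z 1 = 24 * t * Real.cos θ ∧
      z 2 = 24 * t * Real.sin θ := by
  unfold edge at h
  rw [vertex_exC θ 5 (by norm_num), vertex_exC θ (5 + 1) (by norm_num)] at h
  obtain ⟨t, h0, h1, h2⟩ := mem_segment_coord h
  refine ⟨t, h0, h1, ?_, ?_, ?_⟩ <;> rw [h2] <;> simp [exP] <;> ring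

theorem ed6 (h : z ∈ edge (exC θ) 6) :
    ∃ t : ℝ, 0 ≤ t ∧ t ≤ 1 ∧ z 0 = 10 * t ∧ z 1 = 24 * t * Real.cos θ ∧
      z 2 = 24 * t * Real.sin θ := by
  unfold edge at h
  rw [vertex_exC θ 6 (by norm_num), vertex_exC θ (6 + 1) (by norm_num)] at h
  obtain ⟨t, h0, h1, h2⟩ := mem_segment_coord h
  refine ⟨1 - t, by linarith, by linarith, ?_, ?_, ?_⟩ <;> rw [h2] <;> simp [exP] <;> ring

/-- The points of the rotating edges. -/
theorem ed5' (h : z ∈ edge (exC θ) 5) :
    z 1 ^ 2 + z 2 ^ 2 = (12 / 5 * (20 - z 0)) ^ 2 ∧ 0 ≤ 20 - z 0 := by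
  obtain ⟨t, h0, h1, e0, e1, e2⟩ := ed5 h
  rw [e0, e1, e2]
  constructor
  · have := Real.sin_sq_add_cos_sq θ
    linear_combination (576 * t ^ 2) * this
  · linarith

theorem ed6' (h : z ∈ edge (exC θ) 6) :
    z 1 ^ 2 + z 2 ^ 2 = (12 / 5 * z 0) ^ 2 ∧ 0 ≤ z 0 := by
  obtain ⟨t, h0, h1, e0, e1, e2⟩ := ed6 h
  rw [e0, e1, e2]
  constructor
  · have := Real.sin_sq_add_cos_sq θ
    linear_combination (576 * t ^ 2) * this
  · linarith

theorem no5 (h : z ∈ edge (exC θ) 5) (h1 : 0 ≤ z 1) (h2 : 0 ≤ z 2)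
    (h3 : z 1 + z 2 < 12 / 5 * (20 - z 0)) : False := by
  obtain ⟨e, -⟩ := ed5' h
  nlinarith [mul_nonneg h1 h2]

theorem no6 (h : z ∈ edge (exC θ) 6) (h1 : 0 ≤ z 1) (h2 : 0 ≤ z 2)
    (h3 : z 1 + z 2 < 12 / 5 * z 0) : False := by
  obtain ⟨e, -⟩ := ed6' h
  nlinarith [mul_nonneg h1 h2]

end edges

theorem ext3 {x y : R3} (h0 : x 0 = y 0) (h1 : x 1 = y 1) (h2 : x 2 = y 2) : x = y := by
  ext j
  fin_cases j
  · exact h0
  · exact h1
  · exact h2

theorem embedded_exC (θ : ℝ) : ¬ SelfIntersecting (exC θ) := by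
  rintro (⟨i, j, h1, h2, h3, z, hz, hz'⟩ | ⟨i, h1, z, ⟨hz, hz'⟩, hne⟩ | ⟨z, ⟨hz, hz'⟩, hne⟩)
  · interval_cases j
    · omega
    · omega
    · obtain rfl : i = 0 := by omega
      obtain ⟨t, t0, t1, a0, a1, a2⟩ := ed0 hz
      obtain ⟨s, s0, s1, b0, b1, b2⟩ := ed2 hz'
      linarith
    · have : i = 0 ∨ i = 1 := by omega
      obtain ⟨s, s0, s1, b0, b1, b2⟩ := ed3 hz'
      rcases this with rfl | rfl
      · obtain ⟨t, t0, t1, a0, a1, a2⟩ := ed0 hz
        linarith
      · obtain ⟨t, t0, t1, a0, a1, a2⟩ := ed1 hz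
        linarith
    · have : i = 0 ∨ i = 1 ∨ i = 2 := by omega
      obtain ⟨s, s0, s1, b0, b1, b2⟩ := ed4 hz'
      rcases this with rfl | rfl | rfl
      · obtain ⟨t, t0, t1, a0, a1, a2⟩ := ed0 hz
        linarith
      · obtain ⟨t, t0, t1, a0, a1, a2⟩ := ed1 hz
        linarith
      · obtain ⟨t, t0, t1, a0, a1, a2⟩ := ed2 hz
        linarith
    · have : i = 0 ∨ i = 1 ∨ i = 2 ∨ i = 3 := by omega
      rcases this with rfl | rfl | rfl | rfl
      · obtain ⟨t, t0, t1, a0, a1, a2⟩ := ed0 hz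
        exact no5 hz' (by linarith) (by linarith) (by linarith)
      · obtain ⟨t, t0, t1, a0, a1, a2⟩ := ed1 hz
        exact no5 hz' (by linarith) (by linarith) (by linarith)
      · obtain ⟨t, t0, t1, a0, a1, a2⟩ := ed2 hz
        exact no5 hz' (by linarith) (by linarith) (by linarith)
      · obtain ⟨t, t0, t1, a0, a1, a2⟩ := ed3 hz
        exact no5 hz' (by linarith) (by linarith) (by linarith)
    · have : i = 1 ∨ i = 2 ∨ i = 3 ∨ i = 4 := by omega
      rcases this with rfl | rfl | rfl | rfl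
      · obtain ⟨t, t0, t1, a0, a1, a2⟩ := ed1 hz
        exact no6 hz' (by linarith) (by linarith) (by linarith)
      · obtain ⟨t, t0, t1, a0, a1, a2⟩ := ed2 hz
        exact no6 hz' (by linarith) (by linarith) (by linarith)
      · obtain ⟨t, t0, t1, a0, a1, a2⟩ := ed3 hz
        exact no6 hz' (by linarith) (by linarith) (by linarith)
      · obtain ⟨t, t0, t1, a0, a1, a2⟩ := ed4 hz
        exact no6 hz' (by linarith) (by linarith) (by linarith)
  · apply hne
    rw [vertex_exC θ (i + 1) (by omega)]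
    have : i = 0 ∨ i = 1 ∨ i = 2 ∨ i = 3 ∨ i = 4 ∨ i = 5 := by omega
    rcases this with rfl | rfl | rfl | rfl | rfl | rfl
    · obtain ⟨t, t0, t1, a0, a1, a2⟩ := ed0 hz
      obtain ⟨s, s0, s1, b0, b1, b2⟩ := ed1 hz'
      apply ext3 <;> simp [exP] <;> linarith
    · obtain ⟨t, t0, t1, a0, a1, a2⟩ := ed1 hz
      obtain ⟨s, s0, s1, b0, b1, b2⟩ := ed2 hz'
      apply ext3 <;> simp [exP] <;> linarith
    · obtain ⟨t, t0, t1, a0, a1, a2⟩ := ed2 hz
      obtain ⟨s, s0, s1, b0, b1, b2⟩ := ed3 hz'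
      apply ext3 <;> simp [exP] <;> linarith
    · obtain ⟨t, t0, t1, a0, a1, a2⟩ := ed3 hz
      obtain ⟨s, s0, s1, b0, b1, b2⟩ := ed4 hz'
      apply ext3 <;> simp [exP] <;> linarith
    · obtain ⟨t, t0, t1, a0, a1, a2⟩ := ed4 hz
      have ht : t = 1 := by
        by_contra hcon
        have : t < 1 := lt_of_le_of_ne t1 hcon
        exact no5 hz' (by linarith) (by linarith) (by linarith)
      rw [ht] at a0 a1 a2
      apply ext3 <;> simp [exP] <;> linarith
    · obtain ⟨t, t0, t1, a0, a1, a2⟩ := ed5 hz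
      obtain ⟨s, s0, s1, b0, b1, b2⟩ := ed6 hz'
      obtain ⟨e1, e2⟩ := ed5' hz
      obtain ⟨e3, e4⟩ := ed6' hz'
      have h10 : z 0 = 10 := by nlinarith
      have ht : t = 1 := by linarith
      rw [ht] at a0 a1 a2
      apply ext3 <;> simp [exP] <;> linarith
  · apply hne
    rw [vertex_exC θ 0 (by omega)]
    obtain ⟨t, t0, t1, a0, a1, a2⟩ := ed0 hz'
    have ht : t = 0 := by
      by_contra hcon
      have : 0 < t := lt_of_le_of_ne t0 (Ne.symm hcon)
      exact no6 hz (by linarith) (by linarith) (by linarith)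
    rw [ht] at a0 a1 a2
    apply ext3 <;> simp [exP] <;> linarith

theorem OC_exC (θ : ℝ) : OC (exC θ) := by
  unfold OC
  rw [vertex_exC θ 0 (by norm_num), vertex_exC θ 1 (by norm_num), vertex_exC θ 2 (by norm_num),
    vertex_exC θ 3 (by norm_num), vertex_exC θ 4 (by norm_num), vertex_exC θ 5 (by norm_num)]
  refine ⟨?_, ?_, ?_, ?_, ?_, ?_, ?_, ?_, ?_, ?_⟩ <;> simp [exP, det3] <;> norm_num

theorem dih_exC (θ : ℝ) : dih (exC θ) = (57600 - 38400 * Complex.I) *
    Complex.exp ((θ : ℂ) * Complex.I) := by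
  unfold dih
  rw [vertex_exC θ 0 (by norm_num), vertex_exC θ 1 (by norm_num), vertex_exC θ 5 (by norm_num),
    vertex_exC θ 6 (by norm_num), Complex.exp_mul_I]
  have hs : Real.sqrt ((exP θ 5 - exP θ 0) ⬝ᵥ (exP θ 5 - exP θ 0)) = 20 := by
    have : (exP θ 5 - exP θ 0) ⬝ᵥ (exP θ 5 - exP θ 0) = 20 ^ 2 := by
      simp [exP, dotProduct, Fin.sum_univ_three]; norm_num
    rw [this, Real.sqrt_sq (by norm_num)]
  unfold dihed
  rw [hs]
  apply Complex.ext
  · simp [exP, dotProduct, Fin.sum_univ_three, Complex.cos_ofReal_re, Complex.sin_ofReal_re]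
    ring
  · simp [exP, det3, Complex.cos_ofReal_re, Complex.sin_ofReal_re]
    ring

/-! ## The loop and the main theorem -/

/-- A loop whose image under a nowhere vanishing function runs once around a circle centred at `0`
is not null-homotopic. -/
theorem not_homotopic_refl {Y : Type*} [TopologicalSpace Y] (f : Y → ℂ) (hf : Continuous f)
    (hf0 : ∀ y, f y ≠ 0) {x : Y} (γ : Path x x) (α : ℂ) (hα : α ≠ 0)
    (hγ : ∀ t : unitInterval, f (γ t) =
      α * Complex.exp (((2 * Real.pi * (t : ℝ) : ℝ) : ℂ) * Complex.I)) :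
    ¬ γ.Homotopic (Path.refl x) := by
  intro hhom
  let Γ : unitInterval → ℂ := fun t =>
    Complex.log α + ((2 * Real.pi * (t : ℝ) : ℝ) : ℂ) * Complex.I
  have hΓcont : Continuous Γ := by fun_prop
  let F : Y → {z : ℂ // z ≠ 0} := fun y => ⟨f y, hf0 y⟩
  have hF : Continuous F := by fun_prop
  have hlift : (fun z : ℂ ↦ (⟨_, z.exp_ne_zero⟩ : {z : ℂ // z ≠ 0})) ∘ Γ
      = (γ.map hF).toContinuousMap := by
    funext t
    apply Subtype.ext
    change Complex.exp (Complex.log α + ((2 * Real.pi * (t : ℝ) : ℝ) : ℂ) * Complex.I) = f (γ t)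
    rw [Complex.exp_add, Complex.exp_log hα, hγ t]
  have h0 : (γ.map hF).toContinuousMap 0
      = (fun z : ℂ ↦ (⟨_, z.exp_ne_zero⟩ : {z : ℂ // z ≠ 0})) (Γ 0) := by
    rw [← hlift]; rfl
  have hrefl0 : ((Path.refl x).map hF).toContinuousMap 0
      = (fun z : ℂ ↦ (⟨_, z.exp_ne_zero⟩ : {z : ℂ // z ≠ 0})) (Γ 0) := by
    rw [← h0]
    simp
  have key := Complex.isCoveringMap_exp.liftPath_apply_one_eq_of_homotopicRel
    (γ₀ := (γ.map hF).toContinuousMap) (γ₁ := ((Path.refl x).map hF).toContinuousMap)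
    (hhom.map ⟨F, hF⟩) (Γ 0) h0 hrefl0
  have k1 : Γ = Complex.isCoveringMap_exp.liftPath (γ.map hF).toContinuousMap (Γ 0) h0 := by
    rw [Complex.isCoveringMap_exp.eq_liftPath_iff]
    exact ⟨hΓcont, hlift, rfl⟩
  have k2 : (fun _ : unitInterval => Γ 0)
      = Complex.isCoveringMap_exp.liftPath ((Path.refl x).map hF).toContinuousMap (Γ 0)
        hrefl0 := by
    rw [Complex.isCoveringMap_exp.eq_liftPath_iff]
    refine ⟨continuous_const, ?_, rfl⟩
    funext t
    have : ((Path.refl x).map hF).toContinuousMap t =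
        ((Path.refl x).map hF).toContinuousMap 0 := by
      simp
    rw [this, hrefl0]; rfl
  rw [← k1, ← k2] at key
  simp only [Γ] at key
  simp [Real.pi_ne_zero] at key

theorem exC_two_pi : exC (2 * Real.pi) = exC 0 := by
  apply Subtype.ext
  funext i
  apply Subtype.ext
  show (exL i)⁻¹ • exD (2 * Real.pi) i = (exL i)⁻¹ • exD 0 i
  congr 1
  unfold exD
  simp

theorem main_loop :
    ∃ (x : connectedComponentIn (X exL)ᶜ (cls (exC 0))) (γ : Path x x),
      ¬ γ.Homotopic (Path.refl x) := by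
  set m : PolygonSpace exL := cls (exC 0) with hm
  have hcont : Continuous fun θ : ℝ => (cls (exC θ)) :=
    isQuotientMap_cls.continuous.comp continuous_exC
  have hmemX : ∀ θ : ℝ, cls (exC θ) ∈ (X exL)ᶜ := by
    intro θ h
    exact embedded_exC θ ((mk_mem_X_iff _).1 h)
  have hsub : Set.range (fun θ : ℝ => (cls (exC θ))) ⊆
      connectedComponentIn (X exL)ᶜ m := by
    refine IsPreconnected.subset_connectedComponentIn (isPreconnected_range hcont) ⟨0, rfl⟩ ?_
    rintro _ ⟨θ, rfl⟩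
    exact hmemX θ
  have hmem : ∀ θ : ℝ, cls (exC θ) ∈ connectedComponentIn (X exL)ᶜ m :=
    fun θ => hsub ⟨θ, rfl⟩
  let x : connectedComponentIn (X exL)ᶜ m := ⟨m, hmem 0⟩
  let γ : Path x x :=
    { toFun := fun t => ⟨cls (exC (2 * Real.pi * (t : ℝ))), hmem _⟩
      continuous_toFun := by
        refine Continuous.subtype_mk (hcont.comp ?_) _
        fun_prop
      source' := by
        apply Subtype.ext
        simp [x, hm]
      target' := by
        apply Subtype.ext
        simp [x, hm, exC_two_pi] }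
  refine ⟨x, γ, ?_⟩
  have hO : m ∈ descend (OC (l := exL)) := ⟨exC 0, OC_exC 0, rfl⟩
  have hf : Continuous fun z : connectedComponentIn (X exL)ᶜ m => dihQ z.1 :=
    (continuous_dihQ (l := exL)).comp continuous_subtype_val
  refine not_homotopic_refl (fun z : connectedComponentIn (X exL)ᶜ m => dihQ z.1) hf
    (fun z => ?_) γ (57600 - 38400 * Complex.I) ?_ ?_
  · exact dihQ_ne_zero lens_exL z.1 (connectedComponentIn_subset _ _ z.2)
      (component_subset lens_exL m hO z.2)
  · intro h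
    have := congrArg Complex.re h
    norm_num at this
  · intro t
    exact dih_exC _

/-- **Main theorem.** For the heptagons with side lengths `14, 7, 3, 3, 15, 26, 26` the complement
of the self-intersecting configurations has a connected component which is not contractible; it
even contains a loop which is not null-homotopic. -/
theorem result : ∃ l : Fin 7 → ℝ, l = ![14, 7, 3, 3, 15, 26, 26] ∧ (∀ i, 0 < l i) ∧
    ∃ m : PolygonSpace l, m ∈ (X l)ᶜ ∧
      ¬ ContractibleSpace (connectedComponentIn (X l)ᶜ m) ∧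
      ∃ (x : connectedComponentIn (X l)ᶜ m) (γ : Path x x), ¬ γ.Homotopic (Path.refl x) := by
  refine ⟨exL, rfl, lens_exL.pos, cls (exC 0), ?_, ?_, main_loop⟩
  · intro h
    exact embedded_exC 0 ((mk_mem_X_iff _).1 h)
  · intro hc
    obtain ⟨x, γ, hγ⟩ := main_loop
    exact hγ (SimplyConnectedSpace.paths_homotopic γ (Path.refl x))

end Pool.Agent.Results.MP_e82153_gt.NonContractible
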